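import Pool.Agent.Helper15.RK.GoalsF
import Pool.Agent.Helper83.SP.DER
import Pool.Agent.Helper10.Lin.PhDiv

/-! # Derivations at a point: determinants, inverses, logarithms -/

open Complex Metric Set Filter Topology MeasureTheory
open scoped ContDiff ComplexConjugate ComplexOrder Manifold Matrix

namespace Pool.Agent.Helper16.RK

open Pool.Agent.Helper95.Lin Pool.Agent.Helper16.Abund Pool.Agent.Helper92.Orb
  Pool.Agent.Helper10.SP Pool.Agent.Helper95.RK Pool.Agent.Helper15.RK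

/-- A derivation at the point `x`, on smooth functions on `W`. -/
structure IsDer {n : ℕ} (W : Set (Cn n)) (x : Cn n) (D : (Cn n → ℂ) → ℂ) : Prop where
  add : ∀ f g : Cn n → ℂ, ContDiffOn ℝ ∞ f W → ContDiffOn ℝ ∞ g W →
    D (fun y => f y + g y) = D f + D g
  mul : ∀ f g : Cn n → ℂ, ContDiffOn ℝ ∞ f W → ContDiffOn ℝ ∞ g W →
    D (fun y => f y * g y) = f x * D g + g x * D f
  congr : ∀ f g : Cn n → ℂ, (∀ y ∈ W, f y = g y) → D f = D g
  const : ∀ c : ℂ, D (fun _ => c) = 0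
  log : ∀ F : Cn n → ℂ, ContDiffOn ℝ ∞ F W → (∀ y ∈ W, (F y).im = 0 ∧ 0 < (F y).re) →
    D (fun y => ((Real.log (F y).re : ℝ) : ℂ)) = (F x)⁻¹ * D F

variable {n : ℕ} {W : Set (Cn n)} {x : Cn n} {D : (Cn n → ℂ) → ℂ}

theorem cd_log (hW : IsOpen W) (hx : x ∈ W) (F : Cn n → ℂ) (hF : ContDiffOn ℝ ∞ F W)
    (hp : ∀ y ∈ W, (F y).im = 0 ∧ 0 < (F y).re) (l : Fin n) :
    cd l (fun y => ((Real.log (F y).re : ℝ) : ℂ)) x = (F x)⁻¹ * cd l F x ∧
    cdb l (fun y => ((Real.log (F y).re : ℝ) : ℂ)) x = (F x)⁻¹ * cdb l F x := by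
  have hd : DifferentiableAt ℝ F x :=
    (hF.contDiffAt (hW.mem_nhds hx)).differentiableAt (by simp)
  have h1 : HasFDerivAt F (fderiv ℝ F x) x := hd.hasFDerivAt
  have h2 : HasFDerivAt (fun y => (F y).re) (Complex.reCLM.comp (fderiv ℝ F x)) x :=
    Complex.reCLM.hasFDerivAt.comp x h1
  have h3 : HasFDerivAt (fun y => Real.log (F y).re)
      ((F x).re⁻¹ • (Complex.reCLM.comp (fderiv ℝ F x))) x :=
    h2.log (hp x hx).2.ne'
  have h4 : HasFDerivAt (fun y => ((Real.log (F y).re : ℝ) : ℂ))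
      (Complex.ofRealCLM.comp ((F x).re⁻¹ • (Complex.reCLM.comp (fderiv ℝ F x)))) x :=
    Complex.ofRealCLM.hasFDerivAt.comp x h3
  have h5 : F =ᶠ[𝓝 x] fun y => (((F y).re : ℝ) : ℂ) := by
    filter_upwards [hW.mem_nhds hx] with y hy
    apply Complex.ext
    · simp
    · simpa using (hp y hy).1
  have h6 : HasFDerivAt (fun y => (((F y).re : ℝ) : ℂ))
      (Complex.ofRealCLM.comp (Complex.reCLM.comp (fderiv ℝ F x))) x :=
    Complex.ofRealCLM.hasFDerivAt.comp x h2
  have h7 : fderiv ℝ F x = Complex.ofRealCLM.comp (Complex.reCLM.comp (fderiv ℝ F x)) :=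
    (h6.congr_of_eventuallyEq h5).fderiv
  have h8 : ∀ e, fderiv ℝ (fun y => ((Real.log (F y).re : ℝ) : ℂ)) x e =
      (F x)⁻¹ * fderiv ℝ F x e := by
    intro e
    rw [h4.fderiv, h7]
    have : F x = (((F x).re : ℝ) : ℂ) := h5.self_of_nhds
    rw [this]
    simp
  constructor
  · simp only [cd, h8]; ring
  · simp only [cdb, h8]; ring

theorem isDer_Dv (hWIRT : S_WIRT) (hW : IsOpen W) (hx : x ∈ W) (v : Cn n → Cn n) :
    IsDer W x (fun f => Dv v f x) := by
  constructor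
  · intro f g hf hg
    simp only [Dv]
    rw [← Finset.sum_add_distrib]
    refine Finset.sum_congr rfl fun j _ => ?_
    rw [((hWIRT W hW f g hf hg).2.1 j x hx).1]; ring
  · intro f g hf hg
    simp only [Dv]
    rw [Finset.mul_sum, Finset.mul_sum, ← Finset.sum_add_distrib]
    refine Finset.sum_congr rfl fun j _ => ?_
    rw [((hWIRT W hW f g hf hg).2.2.1 j x hx).1]; ring
  · intro f g h
    simp only [Dv]
    refine Finset.sum_congr rfl fun j _ => ?_
    rw [(Pool.Agent.Helper83.SP.cd_congr hW h j hx).1]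
  · intro c
    simp only [Dv]
    refine Finset.sum_eq_zero fun j _ => ?_
    rw [(Pool.Agent.Helper83.SP.cd_const c j x).1, mul_zero]
  · intro F hF hp
    simp only [Dv]
    rw [Finset.mul_sum]
    refine Finset.sum_congr rfl fun j _ => ?_
    rw [(cd_log hW hx F hF hp j).1]; ring

theorem isDer_Dvb (hWIRT : S_WIRT) (hW : IsOpen W) (hx : x ∈ W) (v : Cn n → Cn n) :
    IsDer W x (fun f => Dvb v f x) := by
  constructor
  · intro f g hf hg
    simp only [Dvb]
    rw [← Finset.sum_add_distrib]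
    refine Finset.sum_congr rfl fun j _ => ?_
    rw [((hWIRT W hW f g hf hg).2.1 j x hx).2]; ring
  · intro f g hf hg
    simp only [Dvb]
    rw [Finset.mul_sum, Finset.mul_sum, ← Finset.sum_add_distrib]
    refine Finset.sum_congr rfl fun j _ => ?_
    rw [((hWIRT W hW f g hf hg).2.2.1 j x hx).2]; ring
  · intro f g h
    simp only [Dvb]
    refine Finset.sum_congr rfl fun j _ => ?_
    rw [(Pool.Agent.Helper83.SP.cd_congr hW h j hx).2]
  · intro c
    simp only [Dvb]
    refine Finset.sum_eq_zero fun j _ => ?_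
    rw [(Pool.Agent.Helper83.SP.cd_const c j x).2, mul_zero]
  · intro F hF hp
    simp only [Dvb]
    rw [Finset.mul_sum]
    refine Finset.sum_congr rfl fun j _ => ?_
    rw [(cd_log hW hx F hF hp j).2]; ring

theorem IsDer.sum (h : IsDer W x D) {ι : Type*} (s : Finset ι) (f : ι → Cn n → ℂ)
    (hf : ∀ i ∈ s, ContDiffOn ℝ ∞ (f i) W) :
    D (fun y => ∑ i ∈ s, f i y) = ∑ i ∈ s, D (f i) := by
  classical
  induction s using Finset.induction_on with
  | empty => simpa using h.const 0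
  | insert a s ha ih =>
    have hs : ∀ j ∈ s, ContDiffOn ℝ ∞ (f j) W := fun j hj => hf j (Finset.mem_insert_of_mem hj)
    simp only [Finset.sum_insert ha]
    rw [h.add (f a) (fun y => ∑ j ∈ s, f j y) (hf a (Finset.mem_insert_self a s))
      (ContDiffOn.sum fun j hj => hs j hj), ih hs]

theorem IsDer.neg (h : IsDer W x D) (f : Cn n → ℂ) (hf : ContDiffOn ℝ ∞ f W) :
    D (fun y => - f y) = - D f := by
  have h1 := h.add f (fun y => - f y) hf hf.neg
  have h2 : D (fun y => f y + - f y) = D (fun _ => 0) := by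
    congr 1; funext y; ring
  rw [h2, h.const] at h1
  exact (neg_eq_of_add_eq_zero_right h1.symm).symm

theorem IsDer.sub (h : IsDer W x D) (f g : Cn n → ℂ) (hf : ContDiffOn ℝ ∞ f W)
    (hg : ContDiffOn ℝ ∞ g W) : D (fun y => f y - g y) = D f - D g := by
  have h1 := h.add f (fun y => - g y) hf hg.neg
  rw [h.neg g hg] at h1
  rw [sub_eq_add_neg, ← h1]
  congr 1

theorem IsDer.prod (h : IsDer W x D) {ι : Type*} [DecidableEq ι] (s : Finset ι)
    (f : ι → Cn n → ℂ) (hf : ∀ i ∈ s, ContDiffOn ℝ ∞ (f i) W) :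
    D (fun y => ∏ i ∈ s, f i y) = ∑ l ∈ s, (∏ i ∈ s.erase l, f i x) * D (f l) := by
  induction s using Finset.induction_on with
  | empty => simpa using h.const 1
  | insert a s ha ih =>
    have hs : ∀ j ∈ s, ContDiffOn ℝ ∞ (f j) W := fun j hj => hf j (Finset.mem_insert_of_mem hj)
    simp only [Finset.prod_insert ha, Finset.sum_insert ha]
    rw [h.mul (f a) (fun y => ∏ j ∈ s, f j y) (hf a (Finset.mem_insert_self a s))
      (contDiffOn_prod fun j hj => hs j hj), ih hs, add_comm, Finset.erase_insert ha]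
    congr 1
    rw [Finset.mul_sum]
    refine Finset.sum_congr rfl fun l hl => ?_
    have hal : a ≠ l := fun hh => ha (hh ▸ hl)
    rw [Finset.erase_insert_of_ne hal,
      Finset.prod_insert (fun hh => ha (Finset.mem_of_mem_erase hh))]
    ring

/-- Jacobi's formula. -/
theorem IsDer.det (h : IsDer W x D) {m : ℕ} (R : Cn n → Matrix (Fin m) (Fin m) ℂ)
    (hR : ∀ i j, ContDiffOn ℝ ∞ (fun y => R y i j) W) :
    D (fun y => (R y).det) = ∑ l, ∑ p, (R x).adjugate l p * D (fun y => R y p l) := by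
  have h1 : (fun y => (R y).det) = fun y => ∑ σ : Equiv.Perm (Fin m),
      ((Equiv.Perm.sign σ : ℤ) : ℂ) * ∏ i, R y (σ i) i := by
    funext y
    rw [Matrix.det_apply']
  rw [h1, h.sum Finset.univ (fun (σ : Equiv.Perm (Fin m)) y =>
    ((Equiv.Perm.sign σ : ℤ) : ℂ) * ∏ i, R y (σ i) i)
    (fun σ _ => contDiffOn_const.mul (contDiffOn_prod fun i _ => hR _ _))]
  have h2 : ∀ σ : Equiv.Perm (Fin m),
      D (fun y => ((Equiv.Perm.sign σ : ℤ) : ℂ) * ∏ i, R y (σ i) i) =
      ∑ l, ((Equiv.Perm.sign σ : ℤ) : ℂ) * ((∏ i ∈ Finset.univ.erase l, R x (σ i) i) *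
        D (fun y => R y (σ l) l)) := by
    intro σ
    rw [h.mul (fun _ => ((Equiv.Perm.sign σ : ℤ) : ℂ)) (fun y => ∏ i, R y (σ i) i)
      contDiffOn_const (contDiffOn_prod fun i _ => hR _ _), h.const, mul_zero, add_zero,
      h.prod Finset.univ (fun i y => R y (σ i) i) (fun i _ => hR _ _), Finset.mul_sum]
  rw [Finset.sum_congr rfl fun σ _ => h2 σ, Finset.sum_comm]
  refine Finset.sum_congr rfl fun l _ => ?_
  have h3 : ∑ p, (R x).adjugate l p * D (fun y => R y p l) =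
      ((R x).updateCol l (fun p => D (fun y => R y p l))).det := by
    have := congrFun (Matrix.cramer_eq_adjugate_mulVec (R x) (fun p => D (fun y => R y p l))) l
    rw [Matrix.cramer_apply] at this
    rw [this]
    rfl
  rw [h3, Matrix.det_apply']
  refine Finset.sum_congr rfl fun σ _ => ?_
  congr 1
  rw [← Finset.mul_prod_erase Finset.univ _ (Finset.mem_univ l), mul_comm]
  congr 1
  · simp
  · refine Finset.prod_congr rfl fun i hi => ?_
    rw [Matrix.updateCol_ne (Finset.ne_of_mem_erase hi)]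

theorem det_smooth {m : ℕ} (R : Cn n → Matrix (Fin m) (Fin m) ℂ)
    (hR : ∀ i j, ContDiffOn ℝ ∞ (fun y => R y i j) W) : ContDiffOn ℝ ∞ (fun y => (R y).det) W := by
  simp only [Matrix.det_apply']
  exact ContDiffOn.sum fun σ _ => contDiffOn_const.mul (contDiffOn_prod fun i _ => hR _ _)

theorem adj_smooth {m : ℕ} (R : Cn n → Matrix (Fin m) (Fin m) ℂ)
    (hR : ∀ i j, ContDiffOn ℝ ∞ (fun y => R y i j) W) (p q : Fin m) :
    ContDiffOn ℝ ∞ (fun y => (R y).adjugate p q) W := by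
  simp only [Matrix.adjugate_apply, Matrix.det_apply']
  refine ContDiffOn.sum fun σ _ => ?_
  refine contDiffOn_const.mul (contDiffOn_prod fun i _ => ?_)
  by_cases hi : σ i = q
  · rw [hi]
    simp only [Matrix.updateRow_self]
    exact contDiffOn_const
  · simp only [Matrix.updateRow_ne hi]
    exact hR _ _

theorem inv_smooth {m : ℕ} (R : Cn n → Matrix (Fin m) (Fin m) ℂ)
    (hR : ∀ i j, ContDiffOn ℝ ∞ (fun y => R y i j) W) (hd : ∀ y ∈ W, (R y).det ≠ 0)
    (p q : Fin m) : ContDiffOn ℝ ∞ (fun y => (R y)⁻¹ p q) W := by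
  have h1 : ContDiffOn ℝ ∞ (fun y => ((R y).det)⁻¹ * (R y).adjugate p q) W :=
    ((det_smooth R hR).inv hd).mul (adj_smooth R hR p q)
  refine h1.congr fun y _ => ?_
  rw [Matrix.inv_def]
  simp [Ring.inverse_eq_inv']

/-- Derivative of the inverse matrix. -/
theorem IsDer.inv (h : IsDer W x D) (hx : x ∈ W) {m : ℕ} (R : Cn n → Matrix (Fin m) (Fin m) ℂ)
    (hR : ∀ i j, ContDiffOn ℝ ∞ (fun y => R y i j) W) (hd : ∀ y ∈ W, (R y).det ≠ 0)
    (p q : Fin m) : D (fun y => (R y)⁻¹ p q) =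
      - ∑ i, ∑ j, (R x)⁻¹ p i * D (fun y => R y i j) * (R x)⁻¹ j q := by
  have hu : ∀ y ∈ W, IsUnit (R y).det := fun y hy => (hd y hy).isUnit
  have h1 : ∀ k, ∑ j, ((R x)⁻¹ p j * D (fun y => R y j k) +
      R x j k * D (fun y => (R y)⁻¹ p j)) = 0 := by
    intro k
    have e1 := h.sum Finset.univ (fun j y => (R y)⁻¹ p j * R y j k)
      (fun j _ => (inv_smooth R hR hd p j).mul (hR j k))
    have e2 : D (fun y => ∑ j, (R y)⁻¹ p j * R y j k) =
        D (fun _ => (1 : Matrix (Fin m) (Fin m) ℂ) p k) := by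
      refine h.congr _ _ fun y hy => ?_
      rw [← Matrix.mul_apply, Matrix.nonsing_inv_mul _ (hu y hy)]
    rw [e2, h.const] at e1
    rw [e1]
    refine Finset.sum_congr rfl fun j _ => ?_
    rw [h.mul _ _ (inv_smooth R hR hd p j) (hR j k)]
  have h2 : ∀ j, ∑ k, R x j k * (R x)⁻¹ k q = (1 : Matrix (Fin m) (Fin m) ℂ) j q := by
    intro j
    rw [← Matrix.mul_apply, Matrix.mul_nonsing_inv _ (hu x hx)]
  have h3 : ∑ k, (∑ j, ((R x)⁻¹ p j * D (fun y => R y j k) +
      R x j k * D (fun y => (R y)⁻¹ p j))) * (R x)⁻¹ k q = 0 := by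
    refine Finset.sum_eq_zero fun k _ => ?_
    rw [h1 k, zero_mul]
  have h4 : ∑ k, (∑ j, ((R x)⁻¹ p j * D (fun y => R y j k) +
      R x j k * D (fun y => (R y)⁻¹ p j))) * (R x)⁻¹ k q =
      ∑ i, ∑ j, (R x)⁻¹ p i * D (fun y => R y i j) * (R x)⁻¹ j q +
        ∑ j, D (fun y => (R y)⁻¹ p j) * ∑ k, R x j k * (R x)⁻¹ k q := by
    simp only [Finset.sum_add_distrib, add_mul, Finset.sum_mul, Finset.mul_sum]
    congr 1
    · rw [Finset.sum_comm]
    · rw [Finset.sum_comm]
      refine Finset.sum_congr rfl fun j _ => Finset.sum_congr rfl fun k _ => ?_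
      ring
  rw [h3] at h4
  simp only [h2, Matrix.one_apply, mul_ite, mul_one, mul_zero, Finset.sum_ite_eq',
    Finset.mem_univ, if_true] at h4
  exact eq_neg_of_add_eq_zero_right h4.symm

/-- Logarithmic derivative of the determinant. -/
theorem IsDer.logdet (h : IsDer W x D) (hx : x ∈ W) {m : ℕ}
    (R : Cn n → Matrix (Fin m) (Fin m) ℂ)
    (hR : ∀ i j, ContDiffOn ℝ ∞ (fun y => R y i j) W)
    (hp : ∀ y ∈ W, ((R y).det).im = 0 ∧ 0 < ((R y).det).re) :
    D (fun y => ((Real.log (R y).det.re : ℝ) : ℂ)) =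
      ∑ l, ∑ p, (R x)⁻¹ l p * D (fun y => R y p l) := by
  have hd : (R x).det ≠ 0 := by
    intro h0
    have := (hp x hx).2
    rw [h0] at this
    simp at this
  rw [h.log (fun y => (R y).det) (det_smooth R hR) hp, h.det R hR, Finset.mul_sum]
  refine Finset.sum_congr rfl fun l _ => ?_
  rw [Finset.mul_sum]
  refine Finset.sum_congr rfl fun p _ => ?_
  rw [Matrix.inv_def]
  simp only [Ring.inverse_eq_inv', Matrix.smul_apply, smul_eq_mul]
  ring

end Pool.Agent.Helper16.RK
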