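import Pool.Agent.Helper16.RK.Calc

/-! # Packet RK-A LDG: the logarithm of the Gram determinant -/

open Complex Metric Set Filter Topology MeasureTheory
open scoped ContDiff ComplexConjugate ComplexOrder Manifold Matrix

namespace Pool.Agent.Helper16.RK

open Pool.Agent.Helper95.Lin Pool.Agent.Helper16.Abund Pool.Agent.Helper92.Orb
  Pool.Agent.Helper10.SP Pool.Agent.Helper95.RK Pool.Agent.Helper15.RK

theorem Dv_smooth (hWIRT : S_WIRT) {n : ℕ} {W : Set (Cn n)} (hW : IsOpen W) {v : Cn n → Cn n}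
    (hv : ContDiffOn ℝ ∞ v W) {f : Cn n → ℂ} (hf : ContDiffOn ℝ ∞ f W) :
    ContDiffOn ℝ ∞ (Dv v f) W :=
  ContDiffOn.sum fun j _ => (contDiffOn_pi.mp hv j).mul ((hWIRT W hW f f hf hf).1 j).1

theorem Dvb_smooth (hWIRT : S_WIRT) {n : ℕ} {W : Set (Cn n)} (hW : IsOpen W) {v : Cn n → Cn n}
    (hv : ContDiffOn ℝ ∞ v W) {f : Cn n → ℂ} (hf : ContDiffOn ℝ ∞ f W) :
    ContDiffOn ℝ ∞ (Dvb v f) W :=
  ContDiffOn.sum fun j _ => (Complex.conjCLE.contDiff.comp_contDiffOn
    (contDiffOn_pi.mp hv j)).mul ((hWIRT W hW f f hf hf).1 j).2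

theorem conj_smooth {n : ℕ} {W : Set (Cn n)} {f : Cn n → ℂ} (hf : ContDiffOn ℝ ∞ f W) :
    ContDiffOn ℝ ∞ (fun y => conj (f y)) W := Complex.conjCLE.contDiff.comp_contDiffOn hf

theorem Dvb_conj (hWIRT : S_WIRT) {n : ℕ} {W : Set (Cn n)} (hW : IsOpen W) (v : Cn n → Cn n)
    {f : Cn n → ℂ} (hf : ContDiffOn ℝ ∞ f W) {x : Cn n} (hx : x ∈ W) :
    Dvb v (fun y => conj (f y)) x = conj (Dv v f x) ∧
    Dv v (fun y => conj (f y)) x = conj (Dvb v f x) := by
  constructor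
  · simp only [Dvb, Dv, map_sum, map_mul]
    refine Finset.sum_congr rfl fun j _ => ?_
    rw [((hWIRT W hW f f hf hf).2.2.2.1 j x hx).2]
  · simp only [Dvb, Dv, map_sum, map_mul, Complex.conj_conj]
    refine Finset.sum_congr rfl fun j _ => ?_
    rw [((hWIRT W hW f f hf hf).2.2.2.1 j x hx).1]

theorem gram_smooth {n k : ℕ} {W : Set (Cn n)} {g : Cn n → Matrix (Fin n) (Fin n) ℂ}
    {v : Fin k → Cn n → Cn n} (hg : ∀ i j, ContDiffOn ℝ ∞ (fun x => g x i j) W)
    (hv : ∀ α, ContDiffOn ℝ ∞ (v α) W) (α β : Fin k) :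
    ContDiffOn ℝ ∞ (fun x => gram g v x α β) W := by
  change ContDiffOn ℝ ∞ (fun x => ∑ i, ∑ j, g x i j * v α x i * conj (v β x j)) W
  exact ContDiffOn.sum fun i _ => ContDiffOn.sum fun j _ =>
    ((hg i j).mul (contDiffOn_pi.mp (hv α) i)).mul (conj_smooth (contDiffOn_pi.mp (hv β) j))

theorem gram_conj {n k : ℕ} {g : Cn n → Matrix (Fin n) (Fin n) ℂ} {v : Fin k → Cn n → Cn n}
    {x : Cn n} (hg : (g x).IsHermitian) (α β : Fin k) :
    gram g v x α β = conj (gram g v x β α) := by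
  simp only [gram, Matrix.of_apply, hermi, map_sum, map_mul, Complex.conj_conj]
  rw [Finset.sum_comm]
  refine Finset.sum_congr rfl fun j _ => Finset.sum_congr rfl fun i _ => ?_
  have : g x i j = conj (g x j i) := (hg.apply i j).symm
  rw [this]
  ring

theorem alg_ldg {k : ℕ} (gi : Matrix (Fin k) (Fin k) ℂ) (a c d : Fin k → Fin k → ℂ) :
    ∑ l, ∑ p, (gi l p * d p l + c p l * - ∑ i, ∑ j, gi l i * a i j * gi j p) =
      - ∑ γ, ∑ δ, gi δ γ * (- d γ δ + ∑ p, ∑ q, a γ q * gi q p * c p δ) := by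
  have h1 : ∑ l, ∑ p, c p l * ∑ i, ∑ j, gi l i * a i j * gi j p =
      ∑ γ, ∑ δ, gi δ γ * ∑ p, ∑ q, a γ q * gi q p * c p δ := by
    simp only [Finset.mul_sum]
    calc ∑ l, ∑ p, ∑ i, ∑ j, c p l * (gi l i * a i j * gi j p)
        = ∑ l, ∑ i, ∑ p, ∑ j, c p l * (gi l i * a i j * gi j p) :=
          Finset.sum_congr rfl fun l _ => Finset.sum_comm
      _ = ∑ i, ∑ l, ∑ p, ∑ j, c p l * (gi l i * a i j * gi j p) := Finset.sum_comm
      _ = _ := by
          refine Finset.sum_congr rfl fun i _ => Finset.sum_congr rfl fun l _ =>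
            Finset.sum_congr rfl fun p _ => Finset.sum_congr rfl fun j _ => ?_
          ring
  have h2 : ∑ l, ∑ p, gi l p * d p l = ∑ γ, ∑ δ, gi δ γ * d γ δ := Finset.sum_comm
  simp only [mul_neg, mul_add, Finset.sum_add_distrib, Finset.sum_neg_distrib, neg_add,
    neg_neg, h1, h2]

/-- **Packet LDG.** -/
theorem ldg (hWIRT : S_WIRT) (hKFB : S_KFB) (hDERK : S_DERK) : S_LDG := by
  intro b k Φ W L w v hK g hg hpos x hx α β
  have hO := hK.isOpen
  have sG := fun γ δ => gram_smooth hg hK.smv γ δ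
  have hc : ∀ y ∈ W, ∀ γ δ, gram g v y γ δ = conj (gram g v y δ γ) :=
    fun y hy γ δ => gram_conj (hpos y hy).isHermitian γ δ
  have dv := fun (y : Cn (b + k)) (hy : y ∈ W) (u : Cn (b + k) → Cn (b + k)) =>
    isDer_Dv hWIRT hO hy u
  have dvb := fun (y : Cn (b + k)) (hy : y ∈ W) (u : Cn (b + k) → Cn (b + k)) =>
    isDer_Dvb hWIRT hO hy u
  -- (1)
  have h1 : ∀ y ∈ W, ∀ (a : Fin k) (γ δ : Fin k), Dvb (v a) (fun y => gram g v y γ δ) y =
      conj (Dv (v a) (fun y => gram g v y δ γ) y) := by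
    intro y hy a γ δ
    rw [← (Dvb_conj hWIRT hO (v a) (sG δ γ) hy).1]
    exact (dvb y hy (v a)).congr _ _ fun z hz => hc z hz γ δ
  obtain ⟨-, -, -, h4, -⟩ := hDERK hK x hx
  refine ⟨fun γ δ => h1 x hx β γ δ, ?_, ?_⟩
  · intro γ δ
    unfold DD
    rw [(h4 _ (sG δ γ) β α).1]
    rw [← (Dvb_conj hWIRT hO (v α) (Dvb_smooth hWIRT hO (hK.smv β) (sG γ δ)) hx).1]
    refine (dvb x hx (v α)).congr _ _ fun z hz => ?_
    rw [h1 z hz β γ δ, Complex.conj_conj]
  · obtain ⟨-, -, -, -, -, hB⟩ := hKFB hK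
    obtain ⟨-, hB2⟩ := hB g hg
    have hB3 := hB2 hpos
    have hp : ∀ y ∈ W, ((gram g v y).det).im = 0 ∧ 0 < ((gram g v y).det).re :=
      fun y hy => (hB3 y hy).2
    have hd : ∀ y ∈ W, (gram g v y).det ≠ 0 := by
      intro y hy h0
      have := (hp y hy).2
      rw [h0] at this
      simp at this
    have si := fun p q => inv_smooth (gram g v) sG hd p q
    have sb := fun p q => Dvb_smooth hWIRT hO (hK.smv β) (sG p q)
    have e1 : DD v α β (fun y => ((Real.log (gram g v y).det.re : ℝ) : ℂ)) x =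
        Dv (v α) (fun y => ∑ l, ∑ p, (gram g v y)⁻¹ l p *
          Dvb (v β) (fun y => gram g v y p l) y) x := by
      unfold DD
      refine (dv x hx (v α)).congr _ _ fun z hz => ?_
      exact (dvb z hz (v β)).logdet hz (gram g v) sG hp
    rw [e1, (dv x hx (v α)).sum Finset.univ (fun l y => ∑ p, (gram g v y)⁻¹ l p *
          Dvb (v β) (fun y => gram g v y p l) y)
        (fun l _ => ContDiffOn.sum fun p _ => (si l p).mul (sb p l))]
    have e2 : ∀ l, Dv (v α) (fun y => ∑ p, (gram g v y)⁻¹ l p *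
          Dvb (v β) (fun y => gram g v y p l) y) x = ∑ p, ((gram g v x)⁻¹ l p *
          DD v α β (fun y => gram g v y p l) x + Dvb (v β) (fun y => gram g v y p l) x *
          Dv (v α) (fun y => (gram g v y)⁻¹ l p) x) := by
      intro l
      rw [(dv x hx (v α)).sum Finset.univ (fun p y => (gram g v y)⁻¹ l p *
          Dvb (v β) (fun y => gram g v y p l) y) (fun p _ => (si l p).mul (sb p l))]
      refine Finset.sum_congr rfl fun p _ => ?_
      exact (dv x hx (v α)).mul _ _ (si l p) (sb p l)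
    rw [Finset.sum_congr rfl fun l _ => e2 l]
    have e3 : ∀ l p, Dv (v α) (fun y => (gram g v y)⁻¹ l p) x =
        - ∑ i, ∑ j, (gram g v x)⁻¹ l i * Dv (v α) (fun y => gram g v y i j) x *
          (gram g v x)⁻¹ j p :=
      fun l p => (dv x hx (v α)).inv hx (gram g v) sG hd l p
    rw [Finset.sum_congr rfl fun l _ => Finset.sum_congr rfl fun p _ => by rw [e3 l p]]
    exact alg_ldg (gram g v x)⁻¹ (fun i j => Dv (v α) (fun y => gram g v y i j) x)
      (fun p l => Dvb (v β) (fun y => gram g v y p l) x)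
      (fun p l => DD v α β (fun y => gram g v y p l) x)

end Pool.Agent.Helper16.RK
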