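import Pool.Agent.Helper16.RK.LDG

/-! # Packet RK-A TORF: torsion and flatness -/

open Complex Metric Set Filter Topology MeasureTheory
open scoped ContDiff ComplexConjugate ComplexOrder Manifold Matrix

namespace Pool.Agent.Helper16.RK

open Pool.Agent.Helper95.Lin Pool.Agent.Helper16.Abund Pool.Agent.Helper92.Orb
  Pool.Agent.Helper10.SP Pool.Agent.Helper95.RK Pool.Agent.Helper15.RK

/-- **Packet TORF.** -/
theorem torf (hWIRT : S_WIRT) (hDERK : S_DERK) (hLDG : S_LDG) : S_TORF := by
  intro b k Φ W L w v hK g hg hpos x hx hflat α β γ δ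
  have hO := hK.isOpen
  have sG := fun γ δ => gram_smooth hg hK.smv γ δ
  obtain ⟨-, -, -, h4, -⟩ := hDERK hK x hx
  have sD := fun (a : Fin k) (p q : Fin k) => Dv_smooth hWIRT hO (hK.smv a) (sG p q)
  have e1 : ∀ β' γ' : Fin k, Dvb (v β') (fun y => TRN g v y α γ γ') x =
      DD v α β' (fun y => gram g v y γ γ') x - DD v γ β' (fun y => gram g v y α γ') x := by
    intro β' γ'
    have := (isDer_Dvb hWIRT hO hx (v β')).sub (Dv (v α) (fun y => gram g v y γ γ'))
      (Dv (v γ) (fun y => gram g v y α γ')) (sD α γ γ') (sD γ α γ')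
    change Dvb (v β') (fun y => Dv (v α) (fun y => gram g v y γ γ') y -
      Dv (v γ) (fun y => gram g v y α γ') y) x = _
    rw [this]
    unfold DD
    rw [(h4 _ (sG γ γ') α β').1, (h4 _ (sG α γ') γ β').1]
  have e2 : ∀ a β' γ' δ' : Fin k, DD v a β' (fun y => gram g v y γ' δ') x =
      ∑ p, ∑ q, Dv (v a) (fun y => gram g v y γ' q) x *
        (gram g v x)⁻¹ q p * Dvb (v β') (fun y => gram g v y p δ') x := by
    intro a β' γ' δ'
    have := hflat a β' γ' δ'
    unfold CRV at this
    linear_combination -this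
  have e3 : ∀ p, conj (TRN g v x β δ p) = Dvb (v β) (fun y => gram g v y p δ) x -
      Dvb (v δ) (fun y => gram g v y p β) x := by
    intro p
    have a1 := (hLDG hK g hg hpos x hx β β).1 p δ
    have a2 := (hLDG hK g hg hpos x hx δ δ).1 p β
    rw [a1, a2]
    simp only [TRN, map_sub]
  rw [e1 β δ, e1 δ β]
  simp only [e2, e3]
  simp only [TRN]
  rw [← Finset.sum_sub_distrib, ← Finset.sum_sub_distrib, ← Finset.sum_sub_distrib]
  refine Finset.sum_congr rfl fun p _ => ?_
  rw [← Finset.sum_sub_distrib, ← Finset.sum_sub_distrib, ← Finset.sum_sub_distrib]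
  refine Finset.sum_congr rfl fun q _ => ?_
  ring

end Pool.Agent.Helper16.RK
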