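import Pool.Agent.Helper40.RK.GoalsE
import Pool.Agent.Helper95.RK.Basics

/-! # Packet RK CMPQK: comparison of the functions `q` -/

open Complex Metric Set Filter Topology Matrix

namespace Pool.Agent.Helper16.RK

open Pool.Agent.Helper95.Lin Pool.Agent.Helper10.SP Pool.Agent.Helper95.RK
  Pool.Agent.Helper40.RK

variable {b k N : ℕ} {c : Fin N → Cn b} {R : ℝ} {P : Set (Cn b) → TriK b k → Prop}
  {Φ : Cn b → ℝ} {Hf : Cn b → Matrix (Fin k) (Fin k) ℂ} {C : ℝ}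

theorem NrK_mono {i : Fin N} {ρ ρ' ε ε' : ℝ} {t : TriK b k} (h : NrK c P i ρ ε t) (hρ : ρ' ≤ ρ)
    (hε : ε ≤ ε') : NrK c P i ρ' ε' t :=
  ⟨h.1, fun z hz => ⟨(h.2 z (ball_subset_ball hρ hz)).1.trans hε,
    MB.mono (h.2 z (ball_subset_ball hρ hz)).2 hε⟩⟩

theorem bigK_det (hA : AFolK c R P Φ Hf C) {i : Fin N} {t : TriK b k} (ht : BigK c P i t)
    {x : Cn b} (hx : x ∈ ball (c i) 4) : IsUnit (t.A x).det :=
  isUnit_iff_ne_zero.2 ((hA.holo _ t ht.1).2.2.2 x hx).2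

theorem A_mulVec_q {t : TriK b k} {x : Cn b} (h : IsUnit (t.A x).det) :
    t.A x *ᵥ t.q x = t.β x := by
  rw [TriK.q, Matrix.mulVec_mulVec, Matrix.mul_nonsing_inv _ h, Matrix.one_mulVec]

theorem norm_q_le (hA : AFolK c R P Φ Hf C) {i : Fin N} {t : TriK b k} (ht : BigK c P i t)
    {x : Cn b} (hx : x ∈ ball (c i) 4) : ‖t.q x‖ ≤ C * ‖t.β x‖ := (hA.abd i t ht x hx).2 _

theorem norm_β_le (hA : AFolK c R P Φ Hf C) {i : Fin N} {t : TriK b k} (ht : BigK c P i t)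
    {x : Cn b} (hx : x ∈ ball (c i) 4) : ‖t.β x‖ ≤ C * ‖t.q x‖ := by
  rw [← A_mulVec_q (bigK_det hA ht hx)]
  exact (hA.abd i t ht x hx).1 _

theorem norm_q_le_q (hA : AFolK c R P Φ Hf C) {i : Fin N} {t : TriK b k} (ht : BigK c P i t)
    {x y : Cn b} (hx : x ∈ ball (c i) 4) (hy : y ∈ ball (c i) 4) :
    ‖t.q x‖ ≤ C ^ 3 * (1 + ‖t.q y‖) := by
  have hC : 1 ≤ C := hA.Cge
  have hCpos : 0 < C := by linarith
  have e1 := norm_q_le hA ht hx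
  have e2 := hA.bgr i t ht x hx y hy
  have e3 := norm_β_le hA ht hy
  set D := ‖t.q y‖
  have hD : 0 ≤ D := norm_nonneg _
  calc ‖t.q x‖ ≤ C * ‖t.β x‖ := e1
    _ ≤ C * (C * (1 + ‖t.β y‖)) := mul_le_mul_of_nonneg_left e2 hCpos.le
    _ ≤ C * (C * (1 + C * D)) := by gcongr
    _ ≤ C ^ 3 * (1 + D) := by
      have : 0 ≤ C * C * (C - 1) := by nlinarith [mul_pos hCpos hCpos]
      nlinarith

theorem cmpqk (hNML : S_NMLK) : S_CMPQK := by
  intro b k N c R P Φ Hf C hA i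
  have hC : 1 ≤ C := hA.Cge
  obtain ⟨η₁, hη₁, h₁⟩ := hNML c R P Φ Hf C hA i (7 / 2) (by norm_num) (1 / 4) (by norm_num)
  obtain ⟨η₂, hη₂, h₂⟩ := hNML c R P Φ Hf C hA i (7 / 2) (by norm_num) (min η₁ (1 / 4))
    (lt_min hη₁ (by norm_num))
  refine ⟨min (min η₁ η₂) (1 / 4), lt_min (lt_min hη₁ hη₂) (by norm_num), C ^ 3, ?_⟩
  have hCpos : 0 < C := by linarith
  intro t t' ht ht' x hx
  refine ⟨?_, fun y hy => norm_q_le_q hA ht.1 hx hy⟩
  intro hx3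
  obtain ⟨hmapt, u, hu, -, hut, -⟩ := (h₂ t (NrK_mono ht le_rfl
    ((min_le_left _ _).trans (min_le_right _ _)))).2
  obtain ⟨-, d, hd, hdeq⟩ := (h₁ t' (NrK_mono ht' le_rfl
    ((min_le_left _ _).trans (min_le_left _ _)))).1 u
    (NrK_mono hu (by norm_num) (min_le_left _ _))
  have hc3 : c i ∈ ball (c i) 3 := mem_ball_self (by norm_num)
  have hc4 : c i ∈ ball (c i) 4 := mem_ball_self (by norm_num)
  have hmove : ∀ z ∈ ball (c i) 3, t.g z ∈ ball (c i) (7 / 2) := by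
    intro z hz
    have h1 := (ht.2 z hz).1
    have h2 : (min (min η₁ η₂) (1 / 4) : ℝ) ≤ 1 / 4 := min_le_right _ _
    rw [mem_ball, dist_eq_norm] at hz ⊢
    have h3 : t.g z - c i = (t.g z - z) + (z - c i) := by abel
    rw [h3]
    have := norm_add_le (t.g z - z) (z - c i)
    linarith
  have hid : ∀ z ∈ ball (c i) 3, t'.β z = d.A (t.g z) *ᵥ t.β z + d.β (t.g z) ∧
      t'.A z = d.A (t.g z) * t.A z := by
    intro z hz
    obtain ⟨e1, e2, e3⟩ := hut z (ball_subset_ball (by norm_num) hz)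
    obtain ⟨f1, f2, f3⟩ := hdeq (t.g z) (hmove z hz)
    simp only [TriK.comp, TriK.one, id] at e1 e2 e3 f1 f2 f3
    rw [e1] at f2 f3
    constructor
    · rw [f2, f3, ← Matrix.mulVec_mulVec, ← add_assoc, ← Matrix.mulVec_add, e3,
        Matrix.mulVec_zero, zero_add]
    · rw [f2, Matrix.mul_assoc, e2, Matrix.mul_one]
  have hdiff : ∀ z ∈ ball (c i) 3, t'.q z - t.q z = (t'.A z)⁻¹ *ᵥ d.β (t.g z) := by
    intro z hz
    obtain ⟨h1, h2⟩ := hid z hz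
    have hz4 := ball_subset_ball (show (3 : ℝ) ≤ 4 by norm_num) hz
    have hta := bigK_det hA ht.1 hz4
    have hta' := bigK_det hA ht'.1 hz4
    have hda : IsUnit (d.A (t.g z)).det := by
      rw [h2, Matrix.det_mul] at hta'
      exact isUnit_of_mul_isUnit_left hta'
    have e1 : t'.q z = (t'.A z)⁻¹ *ᵥ (d.A (t.g z) *ᵥ t.β z) + (t'.A z)⁻¹ *ᵥ d.β (t.g z) := by
      rw [TriK.q, ← Matrix.mulVec_add, ← h1]
    have e2 : (t'.A z)⁻¹ *ᵥ (d.A (t.g z) *ᵥ t.β z) = t.q z := by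
      rw [h2, Matrix.mul_inv_rev, Matrix.mulVec_mulVec, Matrix.mul_assoc,
        Matrix.nonsing_inv_mul _ hda, Matrix.mul_one, TriK.q]
    rw [e1, e2]
    abel
  have hd4 : ∀ z ∈ ball (c i) 3, t.g z ∈ ball (c i) 4 := fun z hz =>
    ball_subset_ball (by norm_num) (hmove z hz)
  -- estimate at `c i`
  have e1 : ‖d.β (t.g (c i))‖ ≤ C * ‖t'.q (c i) - t.q (c i)‖ := by
    have h5 : d.β (t.g (c i)) = t'.A (c i) *ᵥ (t'.q (c i) - t.q (c i)) := by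
      rw [hdiff (c i) hc3, Matrix.mulVec_mulVec, Matrix.mul_nonsing_inv _ (bigK_det hA ht'.1 hc4),
        Matrix.one_mulVec]
    calc ‖d.β (t.g (c i))‖ = ‖t'.A (c i) *ᵥ (t'.q (c i) - t.q (c i))‖ := by rw [← h5]
      _ ≤ _ := (hA.abd i t' ht'.1 (c i) hc4).1 _
  have e2 := hA.bgr i d hd.1 (t.g x) (hd4 x hx3) (t.g (c i)) (hd4 _ hc3)
  have e3 : ‖t'.q x - t.q x‖ ≤ C * ‖d.β (t.g x)‖ := by
    rw [hdiff x hx3]
    exact (hA.abd i t' ht'.1 x hx).2 _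
  set D := ‖t'.q (c i) - t.q (c i)‖
  have hD : 0 ≤ D := norm_nonneg _
  calc ‖t'.q x - t.q x‖ ≤ C * ‖d.β (t.g x)‖ := e3
    _ ≤ C * (C * (1 + ‖d.β (t.g (c i))‖)) := mul_le_mul_of_nonneg_left e2 hCpos.le
    _ ≤ C * (C * (1 + C * D)) := by gcongr
    _ ≤ C ^ 3 * (1 + D) := by
      have : 0 ≤ C * C * (C - 1) := by nlinarith [mul_pos hCpos hCpos]
      nlinarith

end Pool.Agent.Helper16.RK
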