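import Pool.Agent.Helper16.RK.TriMap

/-! # Packet RK EXTSK: the extension step -/

open Complex Metric Set Filter Topology MeasureTheory
open scoped ContDiff ComplexConjugate ComplexOrder Manifold Matrix

namespace Pool.Agent.Helper16.RK

open Pool.Agent.Helper95.Lin Pool.Agent.Helper16.Abund Pool.Agent.Helper92.Orb
  Pool.Agent.Helper10.SP Pool.Agent.Helper95.RK
open Pool.Agent.Helper11.RK (pm_congr lpot_congr)

universe u v

theorem prodK_mono {b k : ℕ} {U U' : Set (Cn b)} {Δ Δ' : Set (Cn k)} (hU : U ⊆ U')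
    (hΔ : Δ ⊆ Δ') : prodK U Δ ⊆ prodK U' Δ' := fun _ hx => ⟨hU hx.1, hΔ hx.2⟩

theorem ptK_mem {b k : ℕ} {U : Set (Cn b)} {Δ : Set (Cn k)} {z : Cn b} {w : Cn k} (hz : z ∈ U)
    (hw : w ∈ Δ) : ptK z w ∈ prodK U Δ := by
  refine ⟨?_, ?_⟩
  · show base (ptK z w) ∈ U
    rwa [base_ptK]
  · show fib (ptK z w) ∈ Δ
    rwa [fib_ptK]

theorem holoOn_mono {n : ℕ} {M : Type v} [TopologicalSpace M] [ChartedSpace (Fin n → ℂ) M]
    {f : Cn n → M} {V V' : Set (Cn n)} (h : HoloOn n f V) (hV' : IsOpen V') (hs : V' ⊆ V) :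
    HoloOn n f V' := ⟨hV', h.2.mono hs⟩

/-- Pulling back a special chart by a map of the pseudogroup. -/
theorem specK_map (hPARBK : S_PARBK.{u, v}) (hPMB : S_PMB.{u, v}) {b k : ℕ} {G : Type u}
    {M : Type v} [Group G] [MulAction G M] [TopologicalSpace M] [T2Space M]
    [ChartedSpace (Fin (b + k) → ℂ) M] [IsManifold 𝓘(ℂ, Fin (b + k) → ℂ) ω M]
    {h q : M → Matrix (Fin (b + k)) (Fin (b + k)) ℂ} {v : M → ℝ} (hD : DataK b k G M h v)
    (hF : FlatFol b k G M q v) {U U' : Set (Cn b)} {Δ Δ' : Set (Cn k)}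
    {ψ' : Cn (b + k) → M} {Ψ Ψ' : Cn b → ℝ} {Hf Hf' : Cn b → Matrix (Fin k) (Fin k) ℂ}
    (hU : IsOpen U) (hΔ : IsOpen Δ) (hψ' : SpecK v q U' Δ' ψ' Ψ' Hf') (γ : G) (t : TriK b k)
    (ht : t.HolOn U) (hpot : ∀ z ∈ U, t.g z ∈ U' ∧ PotRK Ψ Ψ' Hf Hf' t z)
    (hΔt : ∀ z ∈ U, ∀ w ∈ Δ, t.ap z w ∈ Δ')
    (hΨ : ContDiffOn ℝ ∞ Ψ U) (hpos : ∀ z ∈ U, ∀ e, e ≠ 0 → 0 < lev Ψ z e)
    (hH : ∀ i j, ContDiffOn ℝ ∞ (fun z => Hf z i j) U) (hHp : ∀ z ∈ U, (Hf z).PosDef) :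
    SpecK v q U Δ (fun x => γ • ψ' (t.map x)) Ψ Hf := by
  obtain ⟨P1, P2, -, -, -⟩ := hPARBK hD
  obtain ⟨Q1, Q2⟩ := hPMB hD q hF.herm hF.inv
  have hdet : ∀ x ∈ prodK U Δ, (fderiv ℂ t.map x).det ≠ 0 := by
    intro x hx
    rw [triMap_det t hU ht x hx.1]
    exact mul_ne_zero (hpot _ hx.1).2.detg (hpot _ hx.1).2.detA
  have hmaps : MapsTo t.map (prodK U Δ) (prodK U' Δ') := fun x hx =>
    ptK_mem (hpot _ hx.1).1 (hΔt _ hx.1 _ hx.2)
  have hdiff : DifferentiableOn ℂ t.map (prodK U Δ) := fun x hx =>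
    (triMap_diff t hU ht x hx.1).differentiableWithinAt
  obtain ⟨hA, hB⟩ := P1 (prodK U' Δ') (prodK U Δ) ψ' t.map hψ'.par (isOpen_prodK hU hΔ)
    hdiff hmaps hdet
  obtain ⟨hA', hB'⟩ := P2 γ _ _ hA
  refine ⟨hA', hΨ, hpos, ?_, hH, hHp, ?_⟩
  · intro x hx
    have h1 := hB' x hx
    have h2 := (hB x hx).2
    have h3 := hψ'.pot (t.map x) (hmaps hx)
    have h4 : base (t.map x) = t.g (base x) := base_ptK _ _
    obtain ⟨ha0, hd0, heq, -⟩ := (hpot _ hx.1).2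
    have h5 : Real.log (‖(fderiv ℂ t.map x).det‖ ^ 2) =
        Real.log (‖(fderiv ℂ t.g (base x)).det‖ ^ 2) +
          Real.log (‖(t.A (base x)).det‖ ^ 2) := by
      rw [triMap_det t hU ht x hx.1, norm_mul, mul_pow, Real.log_mul]
      · exact pow_ne_zero _ (norm_ne_zero_iff.2 hd0)
      · exact pow_ne_zero _ (norm_ne_zero_iff.2 ha0)
    have h1' : lpot (b + k) v (fun x => γ • ψ' (t.map x)) x =
        lpot (b + k) v (ψ' ∘ t.map) x := h1
    rw [h1', h2, h3, h4, h5, heq]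
    ring
  · intro x hx
    have e1 : pm (b + k) q (fun y => γ • (ψ' ∘ t.map) y) x = pm (b + k) q (ψ' ∘ t.map) x :=
      (Q1 _ _ hA).2.2.2 γ x hx
    have e2 : gm q (fun x => γ • ψ' (t.map x)) x = fbl (pm (b + k) q (ψ' ∘ t.map) x) := by
      unfold gm
      exact congrArg fbl e1
    rw [e2]
    apply hermi_ext
    intro u w
    rw [← hermi_ptK, Q2 _ _ ψ' t.map hψ'.par (isOpen_prodK hU hΔ) hdiff hmaps hdet x hx,
      triMap_fib t hU ht x hx.1 _ (base_ptK _ _), triMap_fib t hU ht x hx.1 _ (base_ptK _ _),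
      hermi_ptK, fib_ptK, fib_ptK]
    have e3 : fbl (pm (b + k) q ψ' (t.map x)) = Hf' (t.g (base x)) := by
      have := hψ'.leaf (t.map x) (hmaps hx)
      rw [show base (t.map x) = t.g (base x) from base_ptK _ _] at this
      exact this
    rw [e3]
    exact (hpot _ hx.1).2.herm u w

theorem extsk (hPARBK : S_PARBK.{u, v}) (hPMB : S_PMB.{u, v}) (hIDM : S_IDM.{v})
    (hTRSK : S_TRSK.{u, v}) (hACBK : S_ACBK) : S_EXTSK.{u, v} := by
  intro b k G M _ _ _ _ _ _ h q v hD hFF N ψ Ψ Hf hψ hcov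
  -- the constant
  have hcon : ∀ i j : Fin N, ∃ C : ℝ, 1 ≤ C ∧ ∀ (V : Set (Cn b)) (t : TriK b k), IsOpen V →
      V ⊆ ball 0 6 → t.HolOn V → MapsTo t.g V (ball 0 6) →
      (∀ z ∈ V, PotRK (Ψ i) (Ψ j) (Hf i) (Hf j) t z) →
      ∀ z ∈ V, z ∈ closedBall (0 : Cn b) 5 → t.g z ∈ closedBall (0 : Cn b) 1 →
        MB (t.A z) C := by
    intro i j
    obtain ⟨C, hC, hC'⟩ := hACBK (ball 0 6) (ball 0 6) (closedBall 0 5) (closedBall 0 1) (Ψ i)
      (Ψ j) (Hf i) (Hf j)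
      isOpen_ball isOpen_ball (isCompact_closedBall _ _) (closedBall_subset_ball (by norm_num))
      (isCompact_closedBall _ _) (closedBall_subset_ball (by norm_num)) (hψ i).smP (hψ j).smP
      (hψ i).pos (hψ j).pos (fun a c => ((hψ i).smH a c).continuousOn)
      (fun a c => ((hψ j).smH a c).continuousOn) (hψ i).posH (hψ j).posH
    exact ⟨C, hC, fun V t h1 h2 h3 h4 h5 z hz hz1 hz2 => (hC' V t h1 h2 h3 h4 h5 z hz hz1 hz2).1⟩
  choose CC hCC1 hCC2 using hcon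
  obtain ⟨C, hC1, hCij⟩ : ∃ C : ℝ, 1 ≤ C ∧ ∀ i j, CC i j ≤ C := by
    refine ⟨1 + ∑ i, ∑ j, CC i j, ?_, ?_⟩
    · have : 0 ≤ ∑ i, ∑ j, CC i j := Finset.sum_nonneg fun i _ => Finset.sum_nonneg fun j _ =>
        le_trans zero_le_one (hCC1 i j)
      linarith
    · intro i j
      have h1 : CC i j ≤ ∑ j, CC i j := Finset.single_le_sum (f := fun j => CC i j)
        (fun j _ => le_trans zero_le_one (hCC1 i j)) (Finset.mem_univ j)
      have h2 : ∑ j, CC i j ≤ ∑ i, ∑ j, CC i j := Finset.single_le_sum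
        (f := fun i => ∑ j, CC i j)
        (fun i _ => Finset.sum_nonneg fun j _ => le_trans zero_le_one (hCC1 i j))
        (Finset.mem_univ i)
      linarith
  have hC0 : 0 < C := lt_of_lt_of_le zero_lt_one hC1
  obtain ⟨s, hs0, hCs⟩ : ∃ s : ℝ, 0 < s ∧ C * s = 1 := ⟨1 / C, by positivity, by field_simp⟩
  refine ⟨s, hs0, ?_⟩
  intro i ρ χ hρ hχ
  -- local extensions
  have hloc : ∀ z₀ ∈ ball (0 : Cn b) 5, ∀ w₀ ∈ ball (0 : Cn k) ρ,
      ∃ (ε : ℝ) (F : Cn (b + k) → M), 0 < ε ∧ ball z₀ ε ⊆ ball 0 5 ∧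
        SpecK v q (ball z₀ ε) (ball w₀ s) F (Ψ i) (Hf i) ∧
        EqOn F χ (prodK (ball z₀ ε) (ball w₀ s ∩ ball 0 ρ)) := by
    intro z₀ hz₀ w₀ hw₀
    obtain ⟨γ, j, x, hx, hγ⟩ := hcov (χ (ptK z₀ w₀))
    have hxm : x ∈ prodK (ball (0 : Cn b) 6) (ball (0 : Cn k) 6) :=
      prodK_mono (ball_subset_ball (by norm_num)) (ball_subset_ball (by norm_num)) hx
    obtain ⟨ρ₁, hρ₁, t, hb1, hb2, hol, hxeq, hpot, hmap⟩ := hTRSK hD hFF (ball 0 5) (ball 0 6)
      (ball 0 ρ) (ball 0 6) χ (ψ j) (Ψ i) (Ψ j) (Hf i) (Hf j) isOpen_ball isOpen_ball isOpen_ball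
      isOpen_ball hχ (hψ j) γ (ptK z₀ w₀) (ptK_mem hz₀ hw₀) x hxm hγ
    rw [base_ptK] at hb1 hol hpot hmap
    rw [fib_ptK] at hb2 hmap
    have hz₀m : z₀ ∈ ball z₀ ρ₁ := mem_ball_self hρ₁
    have hgx : t.g z₀ = base x := by rw [hxeq, TriK.map, base_ptK, base_ptK]
    have hlx : t.ap z₀ w₀ = fib x := by rw [hxeq, TriK.map, fib_ptK, base_ptK, fib_ptK]
    have haC : MB (t.A z₀) C := by
      refine MB.mono (hCC2 i j (ball z₀ ρ₁) t isOpen_ball
        (hb1.trans (ball_subset_ball (by norm_num))) hol (fun z hz => (hpot z hz).1)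
        (fun z hz => (hpot z hz).2) z₀ hz₀m (ball_subset_closedBall hz₀) ?_) (hCij i j)
      rw [hgx]
      exact ball_subset_closedBall hx.1
    have hcA : ∀ a c, ContinuousAt (fun z => t.A z a c) z₀ := fun a c =>
      ((hol.2.1 a c _ hz₀m).differentiableAt (isOpen_ball.mem_nhds hz₀m)).continuousAt
    have hcβ : ContinuousAt t.β z₀ :=
      ((hol.2.2 _ hz₀m).differentiableAt (isOpen_ball.mem_nhds hz₀m)).continuousAt
    have hev1 : ∀ᶠ z in 𝓝 z₀, ∀ a c, ‖t.A z a c - t.A z₀ a c‖ < C / (k + 1) := by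
      rw [eventually_all]
      intro a
      rw [eventually_all]
      intro c
      have h1 : ContinuousAt (fun z => ‖t.A z a c - t.A z₀ a c‖) z₀ :=
        ((hcA a c).sub continuousAt_const).norm
      refine h1.eventually_lt continuousAt_const ?_
      simp only [sub_self, norm_zero]
      positivity
    have hev2 : ∀ᶠ z in 𝓝 z₀, ‖t.ap z w₀‖ < 1 := by
      have hcap : ContinuousAt (fun z => t.ap z w₀) z₀ := by
        have h1 : ContinuousAt (fun z => t.A z *ᵥ w₀) z₀ := by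
          refine continuousAt_pi.2 fun a => ?_
          have : (fun z => (t.A z *ᵥ w₀) a) = fun z => ∑ c, t.A z a c * w₀ c := by
            funext z
            rfl
          rw [this]
          exact tendsto_finsetSum _ fun c _ => ((hcA a c).mul continuousAt_const)
        exact h1.add hcβ
      refine hcap.norm.eventually_lt continuousAt_const ?_
      rw [hlx]
      simpa using hx.2
    obtain ⟨ε', hε', hsub⟩ := Metric.mem_nhds_iff.1 (hev1.and hev2)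
    have hε : 0 < min ε' ρ₁ := lt_min hε' hρ₁
    have hsub1 : ball z₀ (min ε' ρ₁) ⊆ ball z₀ ρ₁ := ball_subset_ball (min_le_right _ _)
    have hsub2 : ∀ z ∈ ball z₀ (min ε' ρ₁), (∀ a c, ‖t.A z a c - t.A z₀ a c‖ < C / (k + 1)) ∧
        ‖t.ap z w₀‖ < 1 :=
      fun z hz => hsub (ball_subset_ball (min_le_left _ _) hz)
    have hsub5 : ball z₀ (min ε' ρ₁) ⊆ ball 0 5 := hsub1.trans hb1
    have hF : SpecK v q (ball z₀ (min ε' ρ₁)) (ball w₀ s) (fun x => γ⁻¹ • ψ j (t.map x))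
        (Ψ i) (Hf i) := by
      refine specK_map hPARBK hPMB hD hFF isOpen_ball isOpen_ball (hψ j) γ⁻¹ t
        ⟨hol.1.mono hsub1, fun a c => (hol.2.1 a c).mono hsub1, hol.2.2.mono hsub1⟩
        (fun z hz => hpot z (hsub1 hz)) ?_ (hχ.smP.mono hsub5)
        (fun z hz => hχ.pos z (hsub5 hz)) (fun a c => (hχ.smH a c).mono hsub5)
        (fun z hz => hχ.posH z (hsub5 hz))
      intro z hz w hw
      obtain ⟨h1, h2⟩ := hsub2 z hz
      rw [mem_ball_zero_iff]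
      have hw' : ‖w - w₀‖ < s := by simpa [dist_eq_norm] using hw
      have e : t.ap z w = t.A z *ᵥ (w - w₀) + t.ap z w₀ := by
        unfold TriK.ap
        rw [Matrix.mulVec_sub]
        abel
      have hMB : MB (t.A z) (2 * C) := by
        have m1 : MB (t.A z - t.A z₀) (k * (C / (k + 1))) :=
          MB.of_entry fun a c => (h1 a c).le
        have m2 : MB (t.A z - t.A z₀) C := by
          refine m1.mono ?_
          have hk : (0 : ℝ) ≤ k := Nat.cast_nonneg k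
          rw [mul_div_assoc', div_le_iff₀ (by linarith)]
          nlinarith
        have m3 := haC.add m2
        rw [add_sub_cancel] at m3
        exact m3.mono (by linarith)
      have h3 : ‖t.A z *ᵥ (w - w₀)‖ ≤ 2 * C * s :=
        (hMB _).trans (mul_le_mul_of_nonneg_left hw'.le (by positivity))
      calc ‖t.ap z w‖ ≤ ‖t.A z *ᵥ (w - w₀)‖ + ‖t.ap z w₀‖ := by
            rw [e]; exact norm_add_le _ _
        _ < 6 := by nlinarith
    refine ⟨min ε' ρ₁, _, hε, hsub5, hF, ?_⟩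
    have hop : IsOpen (prodK (ball z₀ (min ε' ρ₁)) (ball w₀ s ∩ ball 0 ρ)) :=
      isOpen_prodK isOpen_ball (isOpen_ball.inter isOpen_ball)
    have hconv : Convex ℝ (prodK (ball z₀ (min ε' ρ₁)) (ball w₀ s ∩ ball 0 ρ)) :=
      convex_prodK (convex_ball _ _) ((convex_ball _ _).inter (convex_ball _ _))
    refine hIDM _ _ _ hconv.isPreconnected
      (holoOn_mono hF.par.1 hop (prodK_mono (subset_refl _) inter_subset_left))
      (holoOn_mono hχ.par.1 hop (prodK_mono hsub5 inter_subset_right)) (ptK z₀ w₀)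
      (ptK_mem (mem_ball_self hε) ⟨mem_ball_self hs0, hw₀⟩) ?_
    have hnh : prodK (ball z₀ (min ε' ρ₁)) (ball w₀ ρ₁) ∈ 𝓝 (ptK z₀ w₀) :=
      (isOpen_prodK isOpen_ball isOpen_ball).mem_nhds
        (ptK_mem (mem_ball_self hε) (mem_ball_self hρ₁))
    filter_upwards [hnh] with y hy
    have h1 := (hmap (base y) (hsub1 hy.1) (fib y) hy.2).2
    rw [ptK_base_fib] at h1
    show γ⁻¹ • ψ j (t.map y) = χ y
    have h2 : ψ j (t.map y) = γ • χ y := h1.symm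
    rw [h2, inv_smul_smul]
  have hne : Nonempty (Cn (b + k) → M) := ⟨χ⟩
  choose! ε F hε hεsub hspec hEq using hloc
  -- agreement on overlaps
  have hov : ∀ z₀ ∈ ball (0 : Cn b) 5, ∀ w₀ ∈ ball (0 : Cn k) ρ, ∀ z₁ ∈ ball (0 : Cn b) 5,
      ∀ w₁ ∈ ball (0 : Cn k) ρ, ∀ x ∈ prodK (ball z₀ (ε z₀ w₀)) (ball w₀ s),
      x ∈ prodK (ball z₁ (ε z₁ w₁)) (ball w₁ s) → F z₀ w₀ x = F z₁ w₁ x := by
    intro z₀ hz₀ w₀ hw₀ z₁ hz₁ w₁ hw₁ x hx0 hx1
    have hop : IsOpen (prodK (ball z₀ (ε z₀ w₀) ∩ ball z₁ (ε z₁ w₁))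
        (ball w₀ s ∩ ball w₁ s)) :=
      isOpen_prodK (isOpen_ball.inter isOpen_ball) (isOpen_ball.inter isOpen_ball)
    have hconv : Convex ℝ
        (prodK (ball z₀ (ε z₀ w₀) ∩ ball z₁ (ε z₁ w₁)) (ball w₀ s ∩ ball w₁ s)) :=
      convex_prodK ((convex_ball _ _).inter (convex_ball _ _))
        ((convex_ball _ _).inter (convex_ball _ _))
    have hd : ‖w₀ - w₁‖ < 2 * s := by
      have h1 : ‖fib x - w₀‖ < s := by simpa [dist_eq_norm] using hx0.2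
      have h2 : ‖fib x - w₁‖ < s := by simpa [dist_eq_norm] using hx1.2
      have e : w₀ - w₁ = (fib x - w₁) - (fib x - w₀) := by abel
      rw [e]
      refine lt_of_le_of_lt (norm_sub_le _ _) (by linarith)
    have h12 : ‖(2 : ℝ)⁻¹‖ = 2⁻¹ := by norm_num
    have hmid : (2 : ℝ)⁻¹ • (w₀ + w₁) ∈ ball w₀ s ∩ ball w₁ s := by
      constructor
      · rw [mem_ball, dist_eq_norm]
        have e : (2 : ℝ)⁻¹ • (w₀ + w₁) - w₀ = -((2 : ℝ)⁻¹ • (w₀ - w₁)) := by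
          module
        rw [e, norm_neg, norm_smul, h12]
        linarith
      · rw [mem_ball, dist_eq_norm]
        have e : (2 : ℝ)⁻¹ • (w₀ + w₁) - w₁ = (2 : ℝ)⁻¹ • (w₀ - w₁) := by
          module
        rw [e, norm_smul, h12]
        linarith
    have hmid2 : (2 : ℝ)⁻¹ • (w₀ + w₁) ∈ ball (0 : Cn k) ρ := by
      rw [mem_ball_zero_iff, norm_smul, h12]
      have h1 : ‖w₀‖ < ρ := by simpa using hw₀
      have h2 : ‖w₁‖ < ρ := by simpa using hw₁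
      have h3 := norm_add_le w₀ w₁
      linarith
    have hyb0 : base x ∈ ball z₀ (ε z₀ w₀) := hx0.1
    have hyb1 : base x ∈ ball z₁ (ε z₁ w₁) := hx1.1
    refine hIDM _ _ _ hconv.isPreconnected
      (holoOn_mono (hspec z₀ hz₀ w₀ hw₀).par.1 hop
        (prodK_mono inter_subset_left inter_subset_left))
      (holoOn_mono (hspec z₁ hz₁ w₁ hw₁).par.1 hop
        (prodK_mono inter_subset_right inter_subset_right))
      (ptK (base x) ((2 : ℝ)⁻¹ • (w₀ + w₁)))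
      (ptK_mem ⟨hyb0, hyb1⟩ hmid) ?_ ⟨⟨hx0.1, hx1.1⟩, ⟨hx0.2, hx1.2⟩⟩
    have hnh : prodK (ball z₀ (ε z₀ w₀) ∩ ball z₁ (ε z₁ w₁))
        ((ball w₀ s ∩ ball w₁ s) ∩ ball 0 ρ) ∈ 𝓝 (ptK (base x) ((2 : ℝ)⁻¹ • (w₀ + w₁))) :=
      (isOpen_prodK (isOpen_ball.inter isOpen_ball)
        ((isOpen_ball.inter isOpen_ball).inter isOpen_ball)).mem_nhds
        (ptK_mem ⟨hyb0, hyb1⟩ ⟨hmid, hmid2⟩)
    filter_upwards [hnh] with y hy
    rw [hEq z₀ hz₀ w₀ hw₀ ⟨hy.1.1, hy.2.1.1, hy.2.2⟩, hEq z₁ hz₁ w₁ hw₁ ⟨hy.1.2, hy.2.1.2, hy.2.2⟩]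
  -- the centre in the fibre
  have hρs : 0 < ρ + s := by linarith
  obtain ⟨ctr, hctr⟩ : ∃ ctr : Cn k → Cn k, ∀ w ∈ ball (0 : Cn k) (ρ + s),
      ctr w ∈ ball (0 : Cn k) ρ ∧ w ∈ ball (ctr w) s := by
    refine ⟨fun w => (ρ / (ρ + s)) • w, fun w hw => ?_⟩
    have hw' : ‖w‖ < ρ + s := by simpa using hw
    have hq : 0 < ρ / (ρ + s) := by positivity
    constructor
    · rw [mem_ball_zero_iff, norm_smul, Real.norm_eq_abs, abs_of_pos hq]
      calc ρ / (ρ + s) * ‖w‖ < ρ / (ρ + s) * (ρ + s) := by gcongr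
        _ = ρ := by field_simp
    · rw [mem_ball, dist_eq_norm]
      have e : w - (ρ / (ρ + s)) • w = (s / (ρ + s)) • w := by
        have h1 : ρ / (ρ + s) + s / (ρ + s) = 1 := by field_simp
        have h2 : s / (ρ + s) = 1 - ρ / (ρ + s) := by linarith
        rw [h2, sub_smul, one_smul]
      rw [e, norm_smul, Real.norm_eq_abs, abs_of_pos (by positivity)]
      calc s / (ρ + s) * ‖w‖ < s / (ρ + s) * (ρ + s) := by gcongr
        _ = s := by field_simp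
  have hself : ∀ x ∈ prodK (ball (0 : Cn b) 5) (ball (0 : Cn k) (ρ + s)),
      x ∈ prodK (ball (base x) (ε (base x) (ctr (fib x)))) (ball (ctr (fib x)) s) := fun x hx =>
    ⟨mem_ball_self (hε _ hx.1 _ (hctr _ hx.2).1), (hctr _ hx.2).2⟩
  have hopD : IsOpen (prodK (ball (0 : Cn b) 5) (ball (0 : Cn k) (ρ + s))) :=
    isOpen_prodK isOpen_ball isOpen_ball
  have hnear : ∀ x₁ ∈ prodK (ball (0 : Cn b) 5) (ball (0 : Cn k) (ρ + s)),
      (fun x => F (base x) (ctr (fib x)) x) =ᶠ[𝓝 x₁] F (base x₁) (ctr (fib x₁)) := by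
    intro x₁ hx₁
    have h1 : prodK (ball (base x₁) (ε (base x₁) (ctr (fib x₁))))
        (ball (ctr (fib x₁)) s) ∈ 𝓝 x₁ :=
      (isOpen_prodK isOpen_ball isOpen_ball).mem_nhds (hself x₁ hx₁)
    filter_upwards [h1, hopD.mem_nhds hx₁] with x hx hx2
    exact hov _ hx2.1 _ (hctr _ hx2.2).1 _ hx₁.1 _ (hctr _ hx₁.2).1 x (hself x hx2) hx
  refine ⟨fun x => F (base x) (ctr (fib x)) x, ⟨⟨⟨hopD, ?_⟩, ?_⟩, hχ.smP, hχ.pos, ?_, hχ.smH,
    hχ.posH, ?_⟩, ?_⟩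
  · intro x hx
    have hs := (hspec _ hx.1 _ (hctr _ hx.2).1).par.1
    have h1 := (hs.2 x (hself x hx)).mdifferentiableAt (hs.1.mem_nhds (hself x hx))
    exact (h1.congr_of_eventuallyEq (hnear x hx)).mdifferentiableWithinAt
  · intro x hx
    rw [jac_congr (hnear x hx)]
    exact (hspec _ hx.1 _ (hctr _ hx.2).1).par.2 x (hself x hx)
  · intro x hx
    rw [lpot_congr (hnear x hx)]
    exact (hspec _ hx.1 _ (hctr _ hx.2).1).pot x (hself x hx)
  · intro x hx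
    have h1 := (hspec _ hx.1 _ (hctr _ hx.2).1).leaf x (hself x hx)
    rw [← h1]
    unfold gm
    rw [pm_congr (hnear x hx)]
  · intro x hx
    have hx' : x ∈ prodK (ball (0 : Cn b) 5) (ball (0 : Cn k) (ρ + s)) :=
      prodK_mono (subset_refl _) (ball_subset_ball (by linarith)) hx
    exact hEq _ hx'.1 _ (hctr _ hx'.2).1 ⟨(hself x hx').1, (hself x hx').2, hx.2⟩

end Pool.Agent.Helper16.RK
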