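import Pool.Agent.Helper95.RK.GoalsB
import Pool.Agent.Helper95.RK.Basics
import Pool.Agent.Helper16.RK.LDG

/-! # Packet RK STRB: the structure equation -/

open Complex Metric Set Filter Topology MeasureTheory
open scoped ContDiff ComplexConjugate ComplexOrder Manifold Matrix

namespace Pool.Agent.Helper16.RK

open Pool.Agent.Helper95.Lin Pool.Agent.Helper16.Abund Pool.Agent.Helper92.Orb
  Pool.Agent.Helper10.SP Pool.Agent.Helper95.RK Pool.Agent.Helper15.RK

theorem isDer_cd (hWIRT : S_WIRT) {n : ℕ} {W : Set (Cn n)} {x : Cn n} (hW : IsOpen W)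
    (hx : x ∈ W) (l : Fin n) : IsDer W x (fun f => cd l f x) := by
  constructor
  · intro f g hf hg
    exact ((hWIRT W hW f g hf hg).2.1 l x hx).1
  · intro f g hf hg
    exact ((hWIRT W hW f g hf hg).2.2.1 l x hx).1
  · intro f g h
    exact (Pool.Agent.Helper83.SP.cd_congr hW h l hx).1
  · intro c
    exact (Pool.Agent.Helper83.SP.cd_const c l x).1
  · intro F hF hp
    exact (cd_log hW hx F hF hp l).1

theorem isDer_cdb (hWIRT : S_WIRT) {n : ℕ} {W : Set (Cn n)} {x : Cn n} (hW : IsOpen W)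
    (hx : x ∈ W) (l : Fin n) : IsDer W x (fun f => cdb l f x) := by
  constructor
  · intro f g hf hg
    exact ((hWIRT W hW f g hf hg).2.1 l x hx).2
  · intro f g hf hg
    exact ((hWIRT W hW f g hf hg).2.2.1 l x hx).2
  · intro f g h
    exact (Pool.Agent.Helper83.SP.cd_congr hW h l hx).2
  · intro c
    exact (Pool.Agent.Helper83.SP.cd_const c l x).2
  · intro F hF hp
    exact (cd_log hW hx F hF hp l).2

theorem IsDer.sum_mul {n : ℕ} {W : Set (Cn n)} {x : Cn n} {D : (Cn n → ℂ) → ℂ}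
    (h : IsDer W x D) {ι : Type*} (s : Finset ι) (f g : ι → Cn n → ℂ)
    (hf : ∀ i ∈ s, ContDiffOn ℝ ∞ (f i) W) (hg : ∀ i ∈ s, ContDiffOn ℝ ∞ (g i) W) :
    D (fun y => ∑ i ∈ s, f i y * g i y) = ∑ i ∈ s, (f i x * D (g i) + g i x * D (f i)) := by
  rw [h.sum s (fun i y => f i y * g i y) (fun i hi => (hf i hi).mul (hg i hi))]
  exact Finset.sum_congr rfl fun i hi => h.mul _ _ (hf i hi) (hg i hi)

/-- The algebra of the structure equation. -/
theorem alg_strb {k : ℕ} (G B : Fin k → Fin k → ℂ) (g0 gA : Fin k → Fin k → ℂ)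
    (gb : Fin k → Fin k → Fin k → ℂ) (c ci cl : Fin k → ℂ) (cil : Fin k → ℂ) (j l : Fin k)
    (hk : ∀ m, gb l j m = gb m j l) :
    ∑ n, B j n * g0 n l =
      (∑ n, (G j n * gA n l + g0 n l * B j n) -
        ∑ m, (c m * ∑ n, (G j n * gb m n l + g0 n l * 0) + gb m j l * ci m) -
        ∑ m, (g0 j m * cil m + cl m * ∑ n, G j n * g0 n m)) -
      ∑ n, G j n * ((gA n l - ∑ m, c m * gb m n l) - ∑ m, g0 n m * cl m) +
      ∑ m, (g0 j m * cil m + ci m * gb l j m) := by
  have e1 : ∑ m, c m * ∑ n, G j n * gb m n l = ∑ n, G j n * ∑ m, c m * gb m n l := by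
    simp only [Finset.mul_sum]
    rw [Finset.sum_comm]
    refine Finset.sum_congr rfl fun n _ => Finset.sum_congr rfl fun m _ => ?_
    ring
  have e2 : ∑ m, cl m * ∑ n, G j n * g0 n m = ∑ n, G j n * ∑ m, g0 n m * cl m := by
    simp only [Finset.mul_sum]
    rw [Finset.sum_comm]
    refine Finset.sum_congr rfl fun n _ => Finset.sum_congr rfl fun m _ => ?_
    ring
  have e3 : ∑ m, ci m * gb l j m = ∑ m, gb m j l * ci m :=
    Finset.sum_congr rfl fun m _ => by rw [hk m]; ring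
  have e4 : ∑ n, B j n * g0 n l = ∑ n, g0 n l * B j n :=
    Finset.sum_congr rfl fun n _ => by ring
  simp only [mul_zero, add_zero, mul_sub, Finset.sum_add_distrib, Finset.sum_sub_distrib]
  rw [e1, e2, e3, e4]
  ring

/-- **Packet STRB.** -/
theorem strb (hWIRT : S_WIRT) (hSMQ : S_SMQ) : S_STRB := by
  intro b k W Q Φ hA x hx a i j l
  have hO := hA.isOpen
  obtain ⟨⟨-, hg, -, hpsi, hchr, -, -, -⟩, hpt⟩ := hSMQ W Q Φ hA
  have sg : ∀ p q, ContDiffOn ℝ ∞ (fun y => gq Q y p q) W := fun p q => (hg p q).1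
  set c : Fin k → Cn (b + k) → ℂ := fun m y => conj (psq Q a m y) with hc
  have sc : ∀ m, ContDiffOn ℝ ∞ (c m) W := fun m => conj_smooth (hpsi a m)
  have scd : ∀ (f : Cn (b + k) → ℂ), ContDiffOn ℝ ∞ f W → ∀ l, ContDiffOn ℝ ∞ (cd l f) W :=
    fun f hf l => ((hWIRT W hO f f hf hf).1 l).1
  have scdb : ∀ (f : Cn (b + k) → ℂ), ContDiffOn ℝ ∞ f W → ∀ l, ContDiffOn ℝ ∞ (cdb l f) W :=
    fun f hf l => ((hWIRT W hO f f hf hf).1 l).2
  have comm : ∀ (f : Cn (b + k) → ℂ), ContDiffOn ℝ ∞ f W → ∀ l m,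
      cd l (cdb m f) x = cdb m (cd l f) x :=
    fun f hf l m => ((hWIRT W hO f f hf hf).2.2.2.2.1 l m x hx).2.2
  have dcd := fun l => isDer_cd hWIRT hO hx l
  have dcdb := fun l => isDer_cdb hWIRT hO hx l
  -- the derivative of g
  have hgd : ∀ y ∈ W, ∀ p q, cd (Fin.natAdd b i) (fun y => gq Q y p q) y =
      ∑ n, chrM (gq Q) i y p n * gq Q y n q := by
    intro y hy p q
    rw [(hpt y hy).2.2.1 i p q, Matrix.mul_apply]
  have h0 : ∀ m p q, cdb (Fin.natAdd b m) (fun y => chrM (gq Q) i y p q) x = 0 :=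
    fun m p q => ((hpt x hx).2.2.2.1 i p m q).1
  -- second derivatives of g
  have h1 : ∀ (l' : Fin (b + k)) (p q : Fin k), cd (Fin.natAdd b i)
      (cdb l' (fun y => gq Q y p q)) x =
      ∑ n, (chrM (gq Q) i x p n * cdb l' (fun y => gq Q y n q) x +
        gq Q x n q * cdb l' (fun y => chrM (gq Q) i y p n) x) := by
    intro l' p q
    rw [comm _ (sg p q)]
    rw [(dcdb l').congr _ (fun y => ∑ n, chrM (gq Q) i y p n * gq Q y n q)
      (fun y hy => hgd y hy p q)]
    exact (dcdb l').sum_mul Finset.univ (fun n y => chrM (gq Q) i y p n)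
      (fun n y => gq Q y n q) (fun n _ => hchr i p n) (fun n _ => sg n q)
  -- the derivative of K
  have hK : cd (Fin.natAdd b i) (fun y => KKq Q a y j l) x =
      (cd (Fin.natAdd b i) (cdb (Fin.castAdd k a) (fun y => gq Q y j l)) x -
        ∑ m, (c m x * cd (Fin.natAdd b i) (cdb (Fin.natAdd b m) (fun y => gq Q y j l)) x +
          cdb (Fin.natAdd b m) (fun y => gq Q y j l) x * cd (Fin.natAdd b i) (c m) x) -
        ∑ m, (gq Q x j m * cd (Fin.natAdd b i) (cdb (Fin.natAdd b l) (c m)) x +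
          cdb (Fin.natAdd b l) (c m) x * cd (Fin.natAdd b i) (fun y => gq Q y j m) x)) := by
    have e : (fun y => KKq Q a y j l) = fun y =>
        (cdb (Fin.castAdd k a) (fun y => gq Q y j l) y -
          ∑ m, c m y * cdb (Fin.natAdd b m) (fun y => gq Q y j l) y) -
        ∑ m, gq Q y j m * cdb (Fin.natAdd b l) (c m) y := by
      funext y
      rfl
    rw [e, (dcd _).sub (fun y => cdb (Fin.castAdd k a) (fun y => gq Q y j l) y -
        ∑ m, c m y * cdb (Fin.natAdd b m) (fun y => gq Q y j l) y)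
        (fun y => ∑ m, gq Q y j m * cdb (Fin.natAdd b l) (c m) y)
        ((scdb _ (sg j l) _).sub (ContDiffOn.sum fun m _ => (sc m).mul (scdb _ (sg j l) _)))
        (ContDiffOn.sum fun m _ => (sg j m).mul (scdb _ (sc m) _)),
      (dcd _).sub (cdb (Fin.castAdd k a) (fun y => gq Q y j l))
        (fun y => ∑ m, c m y * cdb (Fin.natAdd b m) (fun y => gq Q y j l) y)
        (scdb _ (sg j l) _) (ContDiffOn.sum fun m _ => (sc m).mul (scdb _ (sg j l) _))]
    congr 1
    · congr 1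
      exact (dcd _).sum_mul Finset.univ c (fun m y => cdb (Fin.natAdd b m)
        (fun y => gq Q y j l) y) (fun m _ => sc m) (fun m _ => scdb _ (sg j l) _)
    · exact (dcd _).sum_mul Finset.univ (fun m y => gq Q y j m)
        (fun m => cdb (Fin.natAdd b l) (c m)) (fun m _ => sg j m) (fun m _ => scdb _ (sc m) _)
  have hAA : cdb (Fin.natAdd b l) (fun y => AAq Q a y i j) x =
      ∑ m, (gq Q x j m * cdb (Fin.natAdd b l) (cd (Fin.natAdd b i) (c m)) x +
        cd (Fin.natAdd b i) (c m) x * cdb (Fin.natAdd b l) (fun y => gq Q y j m) x) := by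
    exact (dcdb _).sum_mul Finset.univ (fun m y => gq Q y j m)
      (fun m => cd (Fin.natAdd b i) (c m)) (fun m _ => sg j m) (fun m _ => scd _ (sc m) _)
  -- the conjugate of the Kähler condition
  have hherm : ∀ y ∈ W, ∀ p q, gq Q y p q = conj (gq Q y q p) := by
    intro y hy p q
    exact ((hA.flat.posDef y hy).isHermitian.apply p q).symm
  have hkc : ∀ m, cdb (Fin.natAdd b l) (fun y => gq Q y j m) x =
      cdb (Fin.natAdd b m) (fun y => gq Q y j l) x := by
    intro m
    have e1 : ∀ (l' : Fin (b + k)) (q : Fin k), cdb l' (fun y => gq Q y j q) x =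
        conj (cd l' (fun y => gq Q y q j) x) := by
      intro l' q
      rw [(dcdb l').congr _ (fun y => conj (gq Q y q j)) (fun y hy => hherm y hy j q)]
      exact ((hWIRT W hO _ _ (sg q j) (sg q j)).2.2.2.1 l' x hx).2
    rw [e1, e1]
    exact congrArg _ (hA.flat.kah x hx m j l)
  rw [hK, hAA]
  simp only [h1, h0, hgd x hx]
  simp only [fun m => comm (c m) (sc m) (Fin.natAdd b i) (Fin.natAdd b l)]
  rw [Matrix.mul_apply, Matrix.mul_apply]
  exact alg_strb (fun p q => chrM (gq Q) i x p q)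
    (fun p q => cdb (Fin.castAdd k a) (fun y => chrM (gq Q) i y p q) x)
    (fun p q => gq Q x p q) (fun p q => cdb (Fin.castAdd k a) (fun y => gq Q y p q) x)
    (fun m p q => cdb (Fin.natAdd b m) (fun y => gq Q y p q) x) (fun m => c m x)
    (fun m => cd (Fin.natAdd b i) (c m) x) (fun m => cdb (Fin.natAdd b l) (c m) x)
    (fun m => cdb (Fin.natAdd b l) (cd (Fin.natAdd b i) (c m)) x) j l hkc

end Pool.Agent.Helper16.RK
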