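import Pool.Agent.Helper95.RK.GoalsC
import Pool.Agent.Helper95.RK.Basics
import Pool.Agent.Helper9.RK.ParK
import Pool.Agent.Helper11.RK.BZERO

/-! # The derivative of the maps `(z, w) ↦ (g z, A z w + β z)` -/

open Complex Metric Set Filter Topology MeasureTheory
open scoped ContDiff ComplexConjugate ComplexOrder Manifold Matrix

namespace Pool.Agent.Helper16.RK

open Pool.Agent.Helper95.Lin Pool.Agent.Helper16.Abund Pool.Agent.Helper92.Orb
  Pool.Agent.Helper10.SP Pool.Agent.Helper95.RK

universe u v

variable {b k : ℕ}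

/-- The determinant of a block triangular map. -/
theorem det_blockK (L : Cn (b + k) →L[ℂ] Cn (b + k)) (A : Cn b →L[ℂ] Cn b)
    (B : Matrix (Fin k) (Fin k) ℂ) (h1 : ∀ e, base (L e) = A (base e))
    (h2 : ∀ e, base e = 0 → fib (L e) = B *ᵥ fib e) : L.det = A.det * B.det := by
  have e1 : L.det = (LinearMap.toMatrix' (L : Cn (b + k) →ₗ[ℂ] Cn (b + k))).det := by
    rw [LinearMap.det_toMatrix']
  have e2 : A.det = (LinearMap.toMatrix' (A : Cn b →ₗ[ℂ] Cn b)).det := by
    rw [LinearMap.det_toMatrix']
  rw [e1, e2, ← Matrix.det_submatrix_equiv_self (finSumFinEquiv (m := b) (n := k))]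
  have e3 : (LinearMap.toMatrix' (L : Cn (b + k) →ₗ[ℂ] Cn (b + k))).submatrix
      (finSumFinEquiv (m := b) (n := k)) (finSumFinEquiv (m := b) (n := k)) =
      Matrix.fromBlocks (LinearMap.toMatrix' (A : Cn b →ₗ[ℂ] Cn b)) 0
        (Matrix.of fun i j => L (Pi.single (Fin.castAdd k j) 1) (Fin.natAdd b i)) B := by
    ext i j
    rcases i with i | i <;> rcases j with j | j
    · simp only [Matrix.submatrix_apply, finSumFinEquiv_apply_left, Matrix.fromBlocks_apply₁₁,
        LinearMap.toMatrix'_apply]
      have h := congrFun (h1 (Pi.single (Fin.castAdd k j) 1)) i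
      rw [ecast_eq, base_ptK] at h
      rw [ecast_eq]
      exact h
    · simp only [Matrix.submatrix_apply, finSumFinEquiv_apply_left, finSumFinEquiv_apply_right,
        Matrix.fromBlocks_apply₁₂, LinearMap.toMatrix'_apply, Matrix.zero_apply]
      have h := congrFun (h1 (ef b j)) i
      rw [base_ef, map_zero] at h
      exact h
    · simp only [Matrix.submatrix_apply, finSumFinEquiv_apply_left, finSumFinEquiv_apply_right,
        Matrix.fromBlocks_apply₂₁, LinearMap.toMatrix'_apply, Matrix.of_apply]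
      rfl
    · simp only [Matrix.submatrix_apply, finSumFinEquiv_apply_right,
        Matrix.fromBlocks_apply₂₂, LinearMap.toMatrix'_apply]
      have h := congrFun (h2 (ef b j) (base_ef j)) i
      rw [fib_ef] at h
      simp only [Matrix.mulVec_single, MulOpposite.op_one, one_smul, Matrix.col_apply] at h
      exact h
  rw [e3, Matrix.det_fromBlocks_zero₁₂]

theorem triMap_diff (t : TriK b k) {U : Set (Cn b)} (hU : IsOpen U) (ht : t.HolOn U)
    (x : Cn (b + k)) (hx : base x ∈ U) : DifferentiableAt ℂ t.map x := by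
  have hg : DifferentiableAt ℂ t.g (base x) := (ht.1 _ hx).differentiableAt (hU.mem_nhds hx)
  have hβ : DifferentiableAt ℂ t.β (base x) := (ht.2.2 _ hx).differentiableAt (hU.mem_nhds hx)
  have hA : ∀ i j, DifferentiableAt ℂ (fun z => t.A z i j) (base x) := fun i j =>
    (ht.2.1 i j _ hx).differentiableAt (hU.mem_nhds hx)
  have hb : DifferentiableAt ℂ (fun y : Cn (b + k) => base y) x := (bsL b k).differentiableAt
  have hf : ∀ j : Fin k, DifferentiableAt ℂ (fun y : Cn (b + k) => fib y j) x := fun j =>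
    (ContinuousLinearMap.proj (R := ℂ) (φ := fun _ : Fin (b + k) => ℂ)
      (Fin.natAdd b j)).differentiableAt
  have hap : DifferentiableAt ℂ (fun y : Cn (b + k) => t.ap (base y) (fib y)) x := by
    refine differentiableAt_pi.2 fun i => ?_
    have e : (fun y : Cn (b + k) => t.ap (base y) (fib y) i) = fun y =>
        ∑ j, t.A (base y) i j * fib y j + t.β (base y) i := by
      funext y
      rfl
    rw [e]
    refine DifferentiableAt.add (DifferentiableAt.fun_sum fun j _ => ?_) ?_
    · exact ((hA i j).comp x hb).mul (hf j)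
    · exact (differentiableAt_pi.1 hβ i).comp x hb
  exact (ptL b k).differentiableAt.comp x ((hg.comp x hb).prodMk hap)

theorem triMap_base (t : TriK b k) {U : Set (Cn b)} (hU : IsOpen U) (ht : t.HolOn U)
    (x : Cn (b + k)) (hx : base x ∈ U) (e : Cn (b + k)) :
    base (fderiv ℂ t.map x e) = fderiv ℂ t.g (base x) (base e) := by
  have hg : HasFDerivAt t.g (fderiv ℂ t.g (base x)) (base x) :=
    ((ht.1 _ hx).differentiableAt (hU.mem_nhds hx)).hasFDerivAt
  have h1 : HasFDerivAt (fun y => base (t.map y)) ((bsL b k).comp (fderiv ℂ t.map x)) x :=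
    (bsL b k).hasFDerivAt.comp x (triMap_diff t hU ht x hx).hasFDerivAt
  have h2 : HasFDerivAt (fun y : Cn (b + k) => t.g (base y))
      ((fderiv ℂ t.g (base x)).comp (bsL b k)) x := hg.comp x (bsL b k).hasFDerivAt
  have h3 : (fun y : Cn (b + k) => t.g (base y)) = fun y => base (t.map y) := by
    funext y
    exact (base_ptK _ _).symm
  rw [h3] at h2
  exact DFunLike.congr_fun (h1.unique h2) e

theorem triMap_fib (t : TriK b k) {U : Set (Cn b)} (hU : IsOpen U) (ht : t.HolOn U)
    (x : Cn (b + k)) (hx : base x ∈ U) (e : Cn (b + k)) (he : base e = 0) :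
    fderiv ℂ t.map x e = ptK 0 (t.A (base x) *ᵥ fib e) := by
  have h1 : HasDerivAt (fun s : ℂ => t.map (x + s • e)) (fderiv ℂ t.map x e) 0 := by
    have h2 : HasFDerivAt t.map (fderiv ℂ t.map x) (x + (0 : ℂ) • e) := by
      rw [zero_smul, add_zero]
      exact (triMap_diff t hU ht x hx).hasFDerivAt
    have h3 : HasDerivAt (fun s : ℂ => x + s • e) e 0 := by
      simpa using ((hasDerivAt_id (0 : ℂ)).smul_const e).const_add x
    exact h2.comp_hasDerivAt (0 : ℂ) h3
  have h4 : (fun s : ℂ => t.map (x + s • e)) = fun s : ℂ =>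
      t.map x + s • ptK 0 (t.A (base x) *ᵥ fib e) := by
    funext s
    have hb : base (x + s • e) = base x := by
      rw [base_add, base_smul, he, smul_zero, add_zero]
    have hf : fib (x + s • e) = fib x + s • fib e := by rw [fib_add, fib_smul]
    apply ext_base_fib
    · simp only [TriK.map, base_ptK, base_add, base_smul, hb, smul_zero, add_zero]
    · simp only [TriK.map, fib_ptK, fib_add, fib_smul, hb, hf, TriK.ap, Matrix.mulVec_add,
        Matrix.mulVec_smul]
      abel
  rw [h4] at h1
  have h5 : HasDerivAt (fun s : ℂ => t.map x + s • ptK 0 (t.A (base x) *ᵥ fib e))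
      (ptK 0 (t.A (base x) *ᵥ fib e)) 0 := by
    simpa using ((hasDerivAt_id (0 : ℂ)).smul_const
      (ptK (b := b) 0 (t.A (base x) *ᵥ fib e))).const_add (t.map x)
  exact h1.unique h5

theorem triMap_det (t : TriK b k) {U : Set (Cn b)} (hU : IsOpen U) (ht : t.HolOn U)
    (x : Cn (b + k)) (hx : base x ∈ U) :
    (fderiv ℂ t.map x).det = (fderiv ℂ t.g (base x)).det * (t.A (base x)).det := by
  refine det_blockK _ _ _ (triMap_base t hU ht x hx) fun e he => ?_
  rw [triMap_fib t hU ht x hx e he, fib_ptK]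

theorem hermi_ptK (A : Matrix (Fin (b + k)) (Fin (b + k)) ℂ) (u w : Cn k) :
    hermi A (ptK 0 u) (ptK 0 w) = hermi (fbl A) u w := by
  unfold hermi
  rw [Fin.sum_univ_add]
  simp only [ptK_castAdd, ptK_natAdd, Pi.zero_apply, mul_zero, zero_mul, Finset.sum_const_zero,
    zero_add]
  refine Finset.sum_congr rfl fun i _ => ?_
  rw [Fin.sum_univ_add]
  simp only [ptK_castAdd, ptK_natAdd, Pi.zero_apply, map_zero, mul_zero, Finset.sum_const_zero,
    zero_add]
  rfl

theorem hermi_ext {A B : Matrix (Fin k) (Fin k) ℂ} (h : ∀ u w, hermi A u w = hermi B u w) :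
    A = B := by
  ext i j
  have h1 := h (Pi.single i 1) (Pi.single j 1)
  rwa [Pool.Agent.Helper9.RK.hermi_single, Pool.Agent.Helper9.RK.hermi_single] at h1

end Pool.Agent.Helper16.RK
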