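import Pool.Agent.Helper36.RK.GoalsG
import Pool.Agent.Helper16.RK.TriMap
import Pool.Agent.Helper35.SP.STEP

/-! # Packet RK SUBL: the mixed components grow sublinearly -/

open Complex Metric Set Filter Topology MeasureTheory Matrix
open scoped ContDiff ComplexConjugate ComplexOrder Manifold

namespace Pool.Agent.Helper16.RK

open Pool.Agent.Helper95.Lin Pool.Agent.Helper16.Abund Pool.Agent.Helper92.Orb
  Pool.Agent.Helper10.SP Pool.Agent.Helper95.RK Pool.Agent.Helper36.RK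

/-- The section `z' ↦ ptK z' (Lx lam z' x)`. -/
theorem sec_deriv {b k : ℕ} {lam : Fin (2 * k) → Cn b → Cn k} {z : Cn b}
    (hl : ∀ j, DifferentiableAt ℂ (lam j) z) (x : Fin (2 * k) → ℝ) :
    HasFDerivAt (fun z' => Lx lam z' x) (∑ j, (x j : ℂ) • fderiv ℂ (lam j) z) z ∧
    HasFDerivAt (fun z' : Cn b => ptK z' (Lx lam z' x)) ((ptL b k).comp
      ((ContinuousLinearMap.id ℂ (Cn b)).prod (∑ j, (x j : ℂ) • fderiv ℂ (lam j) z))) z := by
  have h1 : HasFDerivAt (fun z' => Lx lam z' x) (∑ j, (x j : ℂ) • fderiv ℂ (lam j) z) z := by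
    unfold Lx
    exact HasFDerivAt.fun_sum fun j _ => (hl j).hasFDerivAt.const_smul (x j : ℂ)
  exact ⟨h1, (ptL b k).hasFDerivAt.comp z ((hasFDerivAt_id z).prodMk h1)⟩

theorem sum_dLx {b k : ℕ} (lam : Fin (2 * k) → Cn b → Cn k) (z : Cn b) (x : Fin (2 * k) → ℝ)
    (e : Cn b) : (∑ j, (x j : ℂ) • fderiv ℂ (lam j) z) e = dLx lam z x e := by
  simp only [dLx, _root_.sum_apply, _root_.smul_apply]

theorem subl (hBDG : S_BDG) : S_SUBL := by
  intro b k N c R P Φ Hf C H hA hH lam hlam hL i ρ hρ ε hε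
  obtain ⟨K, hK, hbd⟩ := hBDG c R P Φ Hf C H hA hH
  obtain ⟨B0, hB0, hb0⟩ := hlam.bdd
  have hC1 := hA.Cge
  have hC0 : 0 < C := lt_of_lt_of_le one_pos hC1
  set κ : ℝ := K * (C + 2) * C * B0 * (B0 + 1) with hκ
  have hκ0 : 0 < κ := by positivity
  set ε' : ℝ := min ((2 - ρ) / 2) (ε / κ) with hε'
  have hε'0 : 0 < ε' := lt_min (by linarith) (by positivity)
  have hε'1 : ε' ≤ (2 - ρ) / 2 := min_le_left _ _
  have hε'2 : κ * ε' ≤ ε := by
    have := min_le_right ((2 - ρ) / 2) (ε / κ)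
    calc κ * ε' ≤ κ * (ε / κ) := mul_le_mul_of_nonneg_left this hκ0.le
      _ = ε := by field_simp
  obtain ⟨B1, hB1⟩ := hL i ε' hε'0
  set B' : ℝ := max B1 0 with hB'
  have hB'0 : 0 ≤ B' := le_max_right _ _
  refine ⟨K * ((1 + B') * C + 2 * B') * C * B0, by positivity, ?_⟩
  intro z hz x e l
  obtain ⟨t, ht, htz⟩ := hB1 (-x)
  have hball3 : ball (c i) 3 ⊆ Bd c 3 := fun y hy => mem_iUnion.2 ⟨i, hy⟩
  have hball2 : ball (c i) 2 ⊆ Bd c 2 := fun y hy => mem_iUnion.2 ⟨i, hy⟩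
  have hzρ : dist z (c i) ≤ ρ := mem_closedBall.1 hz
  have hz3 : z ∈ ball (c i) 3 := mem_ball.2 (by linarith)
  have hz4 : z ∈ ball (c i) 4 := mem_ball.2 (by linarith)
  have hsub34 : ball (c i) 3 ⊆ ball (c i) 4 := ball_subset_ball (by norm_num)
  obtain ⟨-, hsubR, hol, hdet⟩ := hA.holo _ t ht.1
  have hU4 : IsOpen (ball (c i) 4) := isOpen_ball
  -- bounds for Lx
  have hLx : ∀ z' ∈ ball (c i) 3, ‖Lx lam z' x‖ ≤ B0 * ‖x‖ := fun z' hz' =>
    (hb0 z' (hball3 hz') x).1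
  have hlaml : ‖lam l z‖ ≤ B0 := by
    have h1 := (hb0 z (hball3 hz3) (Pi.single l 1)).1
    have h2 : ∑ j, (((Pi.single l 1 : Fin (2 * k) → ℝ) j : ℝ) : ℂ) • lam j z = lam l z := by
      rw [Finset.sum_eq_single l]
      · simp
      · intro j _ hj
        simp [Pi.single_eq_of_ne hj]
      · intro h; exact absurd (Finset.mem_univ _) h
    have h3 : ‖(Pi.single l 1 : Fin (2 * k) → ℝ)‖ = 1 := by rw [Pi.norm_single]; simp
    rw [h2, h3, mul_one] at h1
    exact h1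
  set M : ℝ := ε' * (B0 + 1) * ‖x‖ + B' with hM
  have hM0 : 0 ≤ M := by positivity
  -- the function G
  set G : Cn b → Cn k := fun z' => t.A z' *ᵥ Lx lam z' x + t.β z' with hG
  have hGb : ∀ z' ∈ ball (c i) 3, ‖G z'‖ ≤ M := by
    intro z' hz'
    obtain ⟨-, h2, h3⟩ := htz z' hz'
    have e1 : G z' = (t.A z' - 1) *ᵥ Lx lam z' x + (Lx lam z' x + t.β z') := by
      simp only [hG, Matrix.sub_mulVec, Matrix.one_mulVec]
      abel
    have e2 : Lx lam z' x + t.β z' = t.β z' - ∑ j, (((-x) j : ℝ) : ℂ) • lam j z' := by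
      simp only [Lx, Pi.neg_apply, Complex.ofReal_neg, neg_smul, Finset.sum_neg_distrib]
      abel
    have h4 : ‖Lx lam z' x + t.β z'‖ ≤ ε' * ‖x‖ + B' := by
      rw [e2]
      refine h3.trans ?_
      rw [norm_neg]
      linarith [le_max_left B1 0]
    have h5 : ‖(t.A z' - 1) *ᵥ Lx lam z' x‖ ≤ ε' * (B0 * ‖x‖) :=
      (h2 _).trans (mul_le_mul_of_nonneg_left (hLx z' hz') hε'0.le)
    rw [e1]
    refine (norm_add_le _ _).trans ?_
    rw [hM]
    linarith
  have hlamD : ∀ j, DifferentiableOn ℂ (lam j) (ball (c i) 3) := fun j =>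
    (hlam.holo j).mono hball3
  have hGd : DifferentiableOn ℂ G (ball (c i) 3) := by
    refine DifferentiableOn.add ?_ (hol.2.2.mono hsub34)
    refine differentiableOn_pi.2 fun a => ?_
    have e1 : (fun z' => (t.A z' *ᵥ Lx lam z' x) a) = fun z' =>
        ∑ p, t.A z' a p * Lx lam z' x p := by
      funext z'
      rfl
    rw [e1]
    refine DifferentiableOn.fun_sum fun p _ => ((hol.2.1 a p).mono hsub34).mul ?_
    have e2 : (fun z' => Lx lam z' x p) = fun z' => ∑ j, (x j : ℂ) * lam j z' p := by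
      funext z'
      simp only [Lx, Finset.sum_apply, Pi.smul_apply, smul_eq_mul]
    rw [e2]
    exact DifferentiableOn.fun_sum fun j _ =>
      (differentiableOn_const _).mul (differentiableOn_pi.1 (hlamD j) p)
  have hb1 : ball z 1 ⊆ ball (c i) 3 := by
    intro y hy
    rw [mem_ball] at hy ⊢
    calc dist y (c i) ≤ dist y z + dist z (c i) := dist_triangle _ _ _
      _ < 3 := by linarith
  have hGf : ‖fderiv ℂ G z‖ ≤ 2 * M := by
    have hb1' : ball z (2 * (1 / 2)) ⊆ ball (c i) 3 := by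
      rw [show (2 : ℝ) * (1 / 2) = 1 by norm_num]
      exact hb1
    have := Pool.Agent.Helper8.Abund.norm_fderiv_le_of_bound (r := 1 / 2) (by norm_num)
      (hGd.mono hb1') (fun y hy => hGb y (hb1' hy))
    calc ‖fderiv ℂ G z‖ ≤ M / (1 / 2) := this
      _ = 2 * M := by ring
  -- the derivative of t.map
  set p : Cn (b + k) := ptK z (Lx lam z x) with hp
  have hbz : base p = z := by rw [hp, base_ptK]
  have hbp : base p ∈ ball (c i) 4 := by rw [hbz]; exact hz4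
  have hsec := (sec_deriv (fun j => (hlamD j z hz3).differentiableAt
    (isOpen_ball.mem_nhds hz3)) x).2
  have hmapd : HasFDerivAt t.map (fderiv ℂ t.map p) (ptK z (Lx lam z x)) :=
    (triMap_diff t hU4 hol p hbp).hasFDerivAt
  have hcomp : HasFDerivAt (fun z' : Cn b => t.map (ptK z' (Lx lam z' x)))
      ((fderiv ℂ t.map p).comp ((ptL b k).comp
      ((ContinuousLinearMap.id ℂ (Cn b)).prod (∑ j, (x j : ℂ) • fderiv ℂ (lam j) z)))) z :=
    HasFDerivAt.comp (f := fun z' : Cn b => ptK z' (Lx lam z' x)) z hmapd hsec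
  have hfibc : HasFDerivAt (fun z' : Cn b => fib (t.map (ptK z' (Lx lam z' x))))
      ((fbL b k).comp ((fderiv ℂ t.map p).comp ((ptL b k).comp
      ((ContinuousLinearMap.id ℂ (Cn b)).prod (∑ j, (x j : ℂ) • fderiv ℂ (lam j) z))))) z :=
    (fbL b k).hasFDerivAt.comp z hcomp
  have hGeq : (fun z' : Cn b => fib (t.map (ptK z' (Lx lam z' x)))) = G := by
    funext z'
    simp only [TriK.map, fib_ptK, base_ptK, TriK.ap, hG]
  rw [hGeq] at hfibc
  have hfib : fib (fderiv ℂ t.map p (ptK e (dLx lam z x e))) = fderiv ℂ G z e := by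
    rw [hfibc.fderiv, ← sum_dLx]
    rfl
  have hbase : base (fderiv ℂ t.map p (ptK e (dLx lam z x e))) = fderiv ℂ t.g z e := by
    have h0 := triMap_base t hU4 hol p hbp (ptK e (dLx lam z x e))
    rw [h0, hbz, base_ptK]
  have hD1 : fderiv ℂ t.map p (ptK e (dLx lam z x e)) =
      ptK (fderiv ℂ t.g z e) (fderiv ℂ G z e) := by
    apply ext_base_fib
    · rw [hbase, base_ptK]
    · rw [hfib, fib_ptK]
  have hD2 : fderiv ℂ t.map p (ptK 0 (lam l z)) = ptK 0 (t.A z *ᵥ lam l z) := by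
    rw [triMap_fib t hU4 hol p hbp _ (base_ptK _ _), fib_ptK, hbz]
  have hpR : p ∈ tubeK k (ball (c i) 4) := by
    show base p ∈ ball (c i) 4
    exact hbp
  have hinv := hH.inv _ t ht.1 p hpR (ptK e (dLx lam z x e)) (ptK 0 (lam l z))
  -- the bound of the derivative of g
  have hgf : ‖fderiv ℂ t.g z e‖ ≤ C * ‖e‖ := by
    have hnhds : ball (c i) 4 ∈ 𝓝 z := isOpen_ball.mem_nhds hz4
    have h1 : ‖fderiv ℂ t.g z‖ ≤ C := by
      refine norm_fderiv_le_of_lip' ℂ hC0.le ?_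
      filter_upwards [hnhds] with y hy
      exact hA.lip i t ht y hy z hz4
    exact ((fderiv ℂ t.g z).le_opNorm e).trans (mul_le_mul_of_nonneg_right h1 (norm_nonneg _))
  have hGe : ‖fderiv ℂ G z e‖ ≤ 2 * M * ‖e‖ :=
    ((fderiv ℂ G z).le_opNorm e).trans (mul_le_mul_of_nonneg_right hGf (norm_nonneg _))
  have hAl : ‖t.A z *ᵥ lam l z‖ ≤ C * B0 :=
    (((hA.abd i t ht z hz4).1) _).trans (mul_le_mul_of_nonneg_left hlaml hC0.le)
  have hgz : t.g z ∈ Bd c 2 := by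
    refine hball2 (mem_ball.2 ?_)
    have h1 := (htz z hz3).1
    calc dist (t.g z) (c i) ≤ dist (t.g z) z + dist z (c i) := dist_triangle _ _ _
      _ < 2 := by rw [dist_eq_norm]; linarith
  have hmapp : t.map p = ptK (t.g z) (G z) := by
    simp only [TriK.map, hp, base_ptK, fib_ptK, TriK.ap, hG]
  have hfin := (hbd (t.g z) hgz (G z) (t.A z *ᵥ lam l z) (fderiv ℂ G z e)).2.2
    (fderiv ℂ t.g z e)
  have h1 : |rL H lam z x e l| ≤ ‖hermi (H p) (ptK e (dLx lam z x e)) (ptK 0 (lam l z))‖ :=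
    Complex.abs_im_le_norm _
  refine h1.trans ?_
  rw [← hinv, hD1, hD2, hmapp]
  refine hfin.trans ?_
  have hGz : ‖G z‖ ≤ M := hGb z hz3
  have h2 : (1 + ‖G z‖) * ‖fderiv ℂ t.g z e‖ + ‖fderiv ℂ G z e‖ ≤
      ((1 + M) * C + 2 * M) * ‖e‖ := by
    have h3 : (1 + ‖G z‖) * ‖fderiv ℂ t.g z e‖ ≤ (1 + M) * (C * ‖e‖) :=
      mul_le_mul (by linarith) hgf (norm_nonneg _) (by linarith)
    calc _ ≤ (1 + M) * (C * ‖e‖) + 2 * M * ‖e‖ := add_le_add h3 hGe
      _ = _ := by ring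
  calc K * ((1 + ‖G z‖) * ‖fderiv ℂ t.g z e‖ + ‖fderiv ℂ G z e‖) * ‖t.A z *ᵥ lam l z‖
      ≤ K * (((1 + M) * C + 2 * M) * ‖e‖) * (C * B0) := by
        refine mul_le_mul (mul_le_mul_of_nonneg_left h2 hK.le) hAl (norm_nonneg _) (by positivity)
    _ = (κ * ε' * ‖x‖ + K * ((1 + B') * C + 2 * B') * C * B0) * ‖e‖ := by
        rw [hM, hκ]; ring
    _ ≤ (ε * ‖x‖ + K * ((1 + B') * C + 2 * B') * C * B0) * ‖e‖ := by
        refine mul_le_mul_of_nonneg_right ?_ (norm_nonneg _)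
        have := mul_le_mul_of_nonneg_right hε'2 (norm_nonneg x)
        linarith

end Pool.Agent.Helper16.RK
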