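import Pool.Agent.Helper36.RK.GoalsG
import Pool.Agent.Helper16.RK.SUBL

/-! # Packet RK ELIM: the limit of the averages -/

open Complex Metric Set Filter Topology MeasureTheory Matrix
open scoped ContDiff ComplexConjugate ComplexOrder Manifold

namespace Pool.Agent.Helper16.RK

open Pool.Agent.Helper95.Lin Pool.Agent.Helper16.Abund Pool.Agent.Helper92.Orb
  Pool.Agent.Helper10.SP Pool.Agent.Helper95.RK Pool.Agent.Helper36.RK

/-- A weight function. -/
theorem exists_wf (m : ℕ) : ∃ χ : (Fin m → ℝ) → ℝ, WF χ ∧ (∀ y, 0 ≤ χ y) ∧ ∫ y, χ y = 1 := by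
  let f : ContDiffBump (0 : Fin m → ℝ) := ⟨1, 2, one_pos, by norm_num⟩
  exact ⟨f.normed volume, ⟨f.contDiff_normed, f.hasCompactSupport_normed⟩,
    fun y => f.nonneg_normed y, f.integral_normed⟩

theorem wf_integrable_mul {m : ℕ} {φ : (Fin m → ℝ) → ℝ} (h : WF φ) {f : (Fin m → ℝ) → ℝ}
    (hf : Continuous f) : Integrable (fun y => φ y * f y) :=
  (h.1.continuous.mul hf).integrable_of_hasCompactSupport (h.2.mul_right)

theorem wf_comp_lin {m : ℕ} {φ : (Fin m → ℝ) → ℝ} (h : WF φ) {Q : Matrix (Fin m) (Fin m) ℝ}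
    (hQ : Q.det ≠ 0) (a : ℝ) : WF (fun y => a * φ (Q⁻¹ *ᵥ (y - 0))) := by
  have hc : ∀ A : Matrix (Fin m) (Fin m) ℝ, ContDiff ℝ 1 (fun y : Fin m → ℝ => A *ᵥ y) := by
    intro A
    have : (fun y : Fin m → ℝ => A *ᵥ y) = fun y => (LinearMap.toContinuousLinearMap A.mulVecLin) y := by
      funext y; rfl
    rw [this]
    exact ContinuousLinearMap.contDiff _
  have e : (fun y => a * φ (Q⁻¹ *ᵥ (y - 0))) = fun y => a * φ (Q⁻¹ *ᵥ y) := by
    funext y; rw [sub_zero]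
  rw [e]
  refine ⟨contDiff_const.mul (h.1.comp (hc _)), ?_⟩
  have hu : IsUnit Q.det := isUnit_iff_ne_zero.2 hQ
  refine HasCompactSupport.intro ((h.2 : IsCompact (tsupport φ)).image (hc Q).continuous) ?_
  intro y hy
  have : φ (Q⁻¹ *ᵥ y) = 0 := by
    by_contra h0
    refine hy ⟨Q⁻¹ *ᵥ y, subset_tsupport _ h0, ?_⟩
    simp only [Matrix.mulVec_mulVec, Matrix.mul_nonsing_inv _ hu, Matrix.one_mulVec]
  rw [this, mul_zero]

section

variable {b k N : ℕ} {c : Fin N → Cn b} {R : ℝ} {P : Set (Cn b) → TriK b k → Prop}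
  {Φ : Cn b → ℝ} {Hf : Cn b → Matrix (Fin k) (Fin k) ℂ} {C : ℝ}
  {H : Cn (b + k) → Matrix (Fin (b + k)) (Fin (b + k)) ℂ} {lam : Fin (2 * k) → Cn b → Cn k}

theorem lam_le {B0 : ℝ} {z : Cn b} (h : ∀ r : Fin (2 * k) → ℝ,
    ‖∑ j, (r j : ℂ) • lam j z‖ ≤ B0 * ‖r‖ ∧ ‖r‖ ≤ B0 * ‖∑ j, (r j : ℂ) • lam j z‖)
    (l : Fin (2 * k)) : ‖lam l z‖ ≤ B0 := by
  have h1 := (h (Pi.single l 1)).1
  have h2 : ∑ j, (((Pi.single l 1 : Fin (2 * k) → ℝ) j : ℝ) : ℂ) • lam j z = lam l z := by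
    rw [Finset.sum_eq_single l]
    · simp
    · intro j _ hj
      simp [Pi.single_eq_of_ne hj]
    · intro h; exact absurd (Finset.mem_univ _) h
  have h3 : ‖(Pi.single l 1 : Fin (2 * k) → ℝ)‖ = 1 := by rw [Pi.norm_single]; simp
  rw [h2, h3, mul_one] at h1
  exact h1

theorem Bd_mono {r r' : ℝ} (h : r ≤ r') : Bd c r ⊆ Bd c r' :=
  iUnion_mono fun _ => ball_subset_ball h

theorem fL_bdd (hBDG : S_BDG) (hA : AFolK c R P Φ Hf C) (hH : KahP c R P H)
    (hlam : PerK c P lam) : ∃ K : ℝ, 0 ≤ K ∧ ∀ z ∈ Bd c 2, ∀ x j l,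
      |fL H lam z x j l| ≤ K := by
  obtain ⟨K, hK, hbd⟩ := hBDG c R P Φ Hf C H hA hH
  obtain ⟨B0, hB0, hb0⟩ := hlam.bdd
  refine ⟨K * B0 * B0, by positivity, fun z hz x j l => ?_⟩
  have hz3 : z ∈ Bd c 3 := Bd_mono (by norm_num) hz
  have h1 := lam_le (hb0 z hz3) j
  have h2 := lam_le (hb0 z hz3) l
  refine (Complex.abs_im_le_norm _).trans (((hbd z hz (Lx lam z x) (lam j z) (lam l z)).1).trans ?_)
  exact mul_le_mul (mul_le_mul_of_nonneg_left h1 hK.le) h2 (norm_nonneg _) (by positivity)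

theorem fL_cont (hSMG : S_SMG) (hA : AFolK c R P Φ Hf C) (hH : KahP c R P H)
    (hlam : PerK c P lam) {z : Cn b} (hz : z ∈ Bd c 3) (j l : Fin (2 * k)) :
    Continuous fun x => fL H lam z x j l := by
  have h := (hSMG c R P Φ Hf C H hA hH lam hlam j l 0).1.continuousOn
  have h2 : ContinuousOn (fun x : Fin (2 * k) → ℝ => ((z, x) : Cn b × (Fin (2 * k) → ℝ))) univ :=
    (Continuous.prodMk_right z).continuousOn
  have h3 := h.comp h2 (fun x _ => mk_mem_prod hz (mem_univ _))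
  exact continuousOn_univ.1 h3

theorem TN_bdd {K : ℝ} {z : Cn b} {j l : Fin (2 * k)}
    (hK : ∀ x, |fL H lam z x j l| ≤ K) {φ : (Fin (2 * k) → ℝ) → ℝ} (hφ : WF φ) (s : ℝ) :
    |TN H lam φ z s j l| ≤ (∫ y, |φ y|) * K := by
  have h1 : Integrable (fun y => |φ y| * K) := by
    have := (hφ.1.continuous.integrable_of_hasCompactSupport hφ.2 (μ := volume)).abs
    exact this.mul_const K
  unfold TN
  calc |∫ y, φ y * fL H lam z (s • y) j l| = ‖∫ y, φ y * fL H lam z (s • y) j l‖ :=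
        (Real.norm_eq_abs _).symm
    _ ≤ ∫ y, |φ y| * K := by
        refine norm_integral_le_of_norm_le h1 (Eventually.of_forall fun y => ?_)
        rw [Real.norm_eq_abs, abs_mul]
        exact mul_le_mul_of_nonneg_left (hK _) (abs_nonneg _)
    _ = (∫ y, |φ y|) * K := integral_mul_const _ _

/-- The real linear map `x ↦ Lx lam z x`. -/
noncomputable def LxL (lam : Fin (2 * k) → Cn b → Cn k) (z : Cn b) :
    (Fin (2 * k) → ℝ) →ₗ[ℝ] Cn k where
  toFun x := Lx lam z x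
  map_add' x y := by
    simp only [Lx, Pi.add_apply, Complex.ofReal_add, add_smul, Finset.sum_add_distrib]
  map_smul' a x := by
    simp only [Lx, Pi.smul_apply, smul_eq_mul, Complex.ofReal_mul, mul_smul, RingHom.id_apply,
      Finset.smul_sum]
    rfl

theorem Lx_inj {z : Cn b} {B0 : ℝ} (h : ∀ r : Fin (2 * k) → ℝ,
    ‖∑ j, (r j : ℂ) • lam j z‖ ≤ B0 * ‖r‖ ∧ ‖r‖ ≤ B0 * ‖∑ j, (r j : ℂ) • lam j z‖) :
    Function.Injective (LxL lam z) := by
  rw [injective_iff_map_eq_zero]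
  intro x hx
  have h1 := (h x).2
  have h2 : ∑ j, (x j : ℂ) • lam j z = 0 := hx
  rw [h2, norm_zero, mul_zero] at h1
  exact norm_le_zero_iff.1 h1

theorem Lx_surj {z : Cn b} {B0 : ℝ} (h : ∀ r : Fin (2 * k) → ℝ,
    ‖∑ j, (r j : ℂ) • lam j z‖ ≤ B0 * ‖r‖ ∧ ‖r‖ ≤ B0 * ‖∑ j, (r j : ℂ) • lam j z‖) (w : Cn k) :
    ∃ y, Lx lam z y = w := by
  have hd : Module.finrank ℝ (Fin (2 * k) → ℝ) = Module.finrank ℝ (Cn k) := by
    rw [Module.finrank_fin_fun, finrank_real_of_complex, Module.finrank_fin_fun]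
  exact (LinearMap.injective_iff_surjective_of_finrank_eq_finrank hd).1 (Lx_inj h) w

theorem Q_det {z z1 : Cn b} {B0 : ℝ} (h : ∀ r : Fin (2 * k) → ℝ,
    ‖∑ j, (r j : ℂ) • lam j z‖ ≤ B0 * ‖r‖ ∧ ‖r‖ ≤ B0 * ‖∑ j, (r j : ℂ) • lam j z‖)
    {A : Matrix (Fin k) (Fin k) ℂ} (hdet : A.det ≠ 0) {Q : Matrix (Fin (2 * k)) (Fin (2 * k)) ℝ}
    (hQ : ∀ p, A *ᵥ lam p z = ∑ l, ((Q l p : ℝ) : ℂ) • lam l z1) : Q.det ≠ 0 := by
  intro h0
  obtain ⟨x, hx, hx0⟩ := Matrix.exists_mulVec_eq_zero_iff.2 h0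
  apply hx
  have h1 : A *ᵥ Lx lam z x = Lx lam z1 (Q *ᵥ x) := by
    have e1 : A *ᵥ Lx lam z x = ∑ p, (x p : ℂ) • (A *ᵥ lam p z) := by
      simp only [Lx, Matrix.mulVec_sum, Matrix.mulVec_smul]
    rw [e1]
    simp only [hQ, Finset.smul_sum, smul_smul, Lx, Matrix.mulVec, dotProduct, Complex.ofReal_sum,
      Complex.ofReal_mul, Finset.sum_smul]
    rw [Finset.sum_comm]
    refine Finset.sum_congr rfl fun l _ => Finset.sum_congr rfl fun p _ => ?_
    rw [mul_comm]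
  have h2 : Lx lam z1 (Q *ᵥ x) = 0 := by
    rw [hx0]
    exact map_zero (LxL lam z1)
  rw [h2] at h1
  have h3 : Lx lam z x = 0 := by
    by_contra h4
    exact hdet (Matrix.exists_mulVec_eq_zero_iff.1 ⟨_, h4, h1⟩)
  exact (injective_iff_map_eq_zero (LxL lam z)).1 (Lx_inj h) x h3

end

theorem sum_form {m : ℕ} (Q E : Matrix (Fin m) (Fin m) ℝ) (p q : Fin m) :
    ∑ p', ∑ q', Q p' p * Q q' q * E p' q' = (Qᵀ * E * Q) p q := by
  rw [Matrix.mul_apply, Finset.sum_comm]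
  refine Finset.sum_congr rfl fun q' _ => ?_
  rw [Matrix.mul_apply, Finset.sum_mul]
  refine Finset.sum_congr rfl fun p' _ => ?_
  rw [Matrix.transpose_apply]
  ring

/-- `S_SHF` with a real scale. -/
theorem shf_real (hSHF : S_SHF) {m : ℕ} (φ : (Fin m → ℝ) → ℝ) (Q0 : Matrix (Fin m) (Fin m) ℝ)
    (v : Fin m → ℝ) (hφ : WF φ) (hQ0 : Q0.det ≠ 0) (K : ℝ) (ε : ℝ) (hε : 0 < ε) :
    ∃ δ > 0, ∀ (f : (Fin m → ℝ) → ℝ), Continuous f → (∀ x, |f x| ≤ K) →
    ∀ (Q : Matrix (Fin m) (Fin m) ℝ) (b' : Fin m → ℝ),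
    (∀ p q, |Q p q - Q0 p q| ≤ δ) → ‖b' - v‖ ≤ δ → ∀ s : ℝ,
    |(∫ y, φ y * f (s • (Q *ᵥ y + b'))) -
      ∫ y, (|Q0.det|⁻¹ * φ (Q0⁻¹ *ᵥ (y - v))) * f (s • y)| ≤ ε := by
  obtain ⟨δ, hδ, h⟩ := hSHF φ Q0 v hφ hQ0 K ε hε
  refine ⟨δ, hδ, fun f hf hfK Q b' h1 h2 s => ?_⟩
  have := h (fun x => f (s • x)) (hf.comp (continuous_const_smul s)) (fun x => hfK _) Q b' h1 h2 1
    one_pos
  simpa only [one_smul] using this

theorem elim (hBDG : S_BDG) (hSMG : S_SMG) (hTRF : S_TRF) (hSHF : S_SHF) (hUNI : Pool.Agent.Helper36.RK.S_UNI)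
    (hVARG : S_VARG) (hTRLG : S_TRLG) : S_ELIM := by
  intro b k N c R P Φ Hf C H hA hH lam hlam hL
  obtain ⟨χ, hχ, hχ0, hχ1⟩ := exists_wf (2 * k)
  obtain ⟨K, hK, hfb⟩ := fL_bdd hBDG hA hH hlam
  obtain ⟨B0, hB0, hb0⟩ := hlam.bdd
  have hci : ∀ i, c i ∈ Bd c 2 := fun i => mem_iUnion.2 ⟨i, mem_ball_self (by norm_num)⟩
  -- the subsequence
  set S : ℕ → Fin N → Fin (2 * k) → Fin (2 * k) → ℝ := fun n i j l =>
    TN H lam χ (c i) n j l with hS
  have hSb : ∀ n, S n ∈ closedBall (0 : Fin N → Fin (2 * k) → Fin (2 * k) → ℝ)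
      ((∫ y, |χ y|) * K) := by
    intro n
    have h0 : 0 ≤ (∫ y, |χ y|) * K := mul_nonneg (integral_nonneg fun _ => abs_nonneg _) hK
    rw [mem_closedBall, dist_zero_right]
    refine (pi_norm_le_iff_of_nonneg h0).2 fun i => (pi_norm_le_iff_of_nonneg h0).2 fun j =>
      (pi_norm_le_iff_of_nonneg h0).2 fun l => ?_
    rw [Real.norm_eq_abs]
    exact TN_bdd (hfb (c i) (hci i) · j l) hχ n
  obtain ⟨E, -, nn, hnn, hlim⟩ := tendsto_subseq_of_bounded isBounded_closedBall hSb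
  have hnnr : Tendsto (fun n => ((nn n : ℕ) : ℝ)) atTop atTop :=
    tendsto_natCast_atTop_atTop.comp hnn.tendsto_atTop
  have hE0 : ∀ i j l, Tendsto (fun n => TN H lam χ (c i) (nn n) j l) atTop (𝓝 (E i j l)) := by
    intro i j l
    have h1 := (tendsto_pi_nhds.1 hlim) i
    have h2 := (tendsto_pi_nhds.1 h1) j
    exact (tendsto_pi_nhds.1 h2) l
  have hfirst : ∀ i, ∀ z ∈ ball (c i) 2, ∀ j l,
      Tendsto (fun n => TN H lam χ z (nn n) j l) atTop (𝓝 (E i j l)) := by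
    intro i z hz j l
    have hd : Tendsto (fun n => TN H lam χ z (nn n) j l - TN H lam χ (c i) (nn n) j l) atTop
        (𝓝 0) := by
      rw [Metric.tendsto_atTop]
      intro ε hε
      obtain ⟨s0, hs0, h⟩ := hVARG c R P Φ Hf C H hA hH lam hlam hL χ hχ i (dist z (c i))
        (mem_ball.1 hz) (ε / 2) (by positivity)
      obtain ⟨n0, hn0⟩ := eventually_atTop.1 (hnnr.eventually_ge_atTop s0)
      refine ⟨n0, fun n hn => ?_⟩
      rw [dist_zero_right, Real.norm_eq_abs]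
      have := h _ (hn0 n hn) z (mem_closedBall.2 le_rfl) (c i)
        (mem_closedBall_self dist_nonneg) j l
      linarith
    have h2 := hd.add (hE0 i j l)
    simpa using h2
  refine ⟨χ, nn, E, hχ, hχ0, hχ1, hnn, hfirst, ?_⟩
  intro U t ht z hzU i j hzi hgj Q hQ
  obtain ⟨-, -, -, hdet⟩ := hA.holo U t ht
  set z1 := t.g z with hz1
  have hz2 : z ∈ Bd c 2 := mem_iUnion.2 ⟨i, hzi⟩
  have hz12 : z1 ∈ Bd c 2 := mem_iUnion.2 ⟨j, hgj⟩
  have hz3 : z ∈ Bd c 3 := Bd_mono (by norm_num) hz2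
  have hz13 : z1 ∈ Bd c 3 := Bd_mono (by norm_num) hz12
  have hQd : Q.det ≠ 0 := Q_det (hb0 z hz3) (hdet z hzU).2 hQ
  obtain ⟨y, hy⟩ := Lx_surj (hb0 z1 hz13) (t.β z)
  have hfc : ∀ p q, Continuous fun x => fL H lam z1 x p q := fun p q =>
    fL_cont hSMG hA hH hlam hz13 p q
  set χQ : (Fin (2 * k) → ℝ) → ℝ := fun u => |Q.det|⁻¹ * χ (Q⁻¹ *ᵥ (u - 0)) with hχQ
  have hχQw : WF χQ := wf_comp_lin hχ hQd _
  have hχQ1 : ∫ u, χQ u = 1 := by
    have h1 : ∀ ε > 0, |(∫ u, χ u) - ∫ u, χQ u| ≤ ε := by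
      intro ε hε
      obtain ⟨δ, hδ, h⟩ := shf_real hSHF χ Q 0 hχ hQd 1 ε hε
      have := h (fun _ => 1) continuous_const (fun _ => by simp) Q 0 (fun p q => by simpa using hδ.le)
        (by simpa using hδ.le) 1
      simpa only [mul_one] using this
    have h2 : |(∫ u, χ u) - ∫ u, χQ u| ≤ 0 := le_of_forall_pos_le_add (by simpa using h1)
    have h3 : (∫ u, χ u) - ∫ u, χQ u = 0 := abs_nonpos_iff.1 h2
    linarith
  -- the integrals
  set J : ℝ → Fin (2 * k) → Fin (2 * k) → ℝ := fun s p q =>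
    ∫ u, χ u * fL H lam z1 (s • (Q *ᵥ u + s⁻¹ • y)) p q with hJ
  have hJ1 : ∀ p q, Tendsto (fun s => J s p q - TN H lam χQ z1 s p q) atTop (𝓝 0) := by
    intro p q
    rw [Metric.tendsto_atTop]
    intro ε hε
    obtain ⟨δ, hδ, h⟩ := shf_real hSHF χ Q 0 hχ hQd K (ε / 2) (by positivity)
    have hsm : Tendsto (fun s : ℝ => s⁻¹ • y) atTop (𝓝 0) := by
      have := (tendsto_inv_atTop_zero (𝕜 := ℝ)).smul_const y
      simpa using this
    have hsm2 : ∀ᶠ s : ℝ in atTop, ‖s⁻¹ • y - 0‖ ≤ δ := by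
      have := hsm.eventually (Metric.closedBall_mem_nhds _ hδ)
      filter_upwards [this] with s hs
      simpa [dist_eq_norm] using hs
    obtain ⟨s0, hs0⟩ := eventually_atTop.1 (hsm2.and (eventually_gt_atTop 0))
    refine ⟨s0, fun s hs => ?_⟩
    obtain ⟨h1, h2⟩ := hs0 s hs
    rw [dist_zero_right, Real.norm_eq_abs]
    have := h (fun x => fL H lam z1 x p q) (hfc p q) (fun x => hfb z1 hz12 x p q) Q (s⁻¹ • y)
      (fun p q => by simpa using hδ.le) h1 s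
    have h3 : |J s p q - TN H lam χQ z1 s p q| ≤ ε / 2 := this
    linarith
  have hJ2 : ∀ p q, Tendsto (fun s => TN H lam χQ z1 s p q - TN H lam χ z1 s p q) atTop (𝓝 0) := by
    intro p q
    have := hUNI (fun x => fL H lam z1 x p q) K (hfc p q) (fun x => hfb z1 hz12 x p q)
      (fun φ hφ v => hTRLG c R P Φ Hf C H hA hH lam hlam hL φ hφ z1 hz12 v p q) χQ χ hχQw hχ
    rw [hχQ1, hχ1] at this
    simp only [mul_one] at this
    exact this
  have hJ3 : ∀ p q, Tendsto (fun n => J (nn n) p q) atTop (𝓝 (E j p q)) := by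
    intro p q
    have h1 := (hJ1 p q).comp hnnr
    have h2 := (hJ2 p q).comp hnnr
    have h3 := hfirst j z1 hgj p q
    have h4 := (h1.add h2).add h3
    have e1 : (fun n => (((fun s => J s p q - TN H lam χQ z1 s p q) ∘ fun n => ((nn n : ℕ) : ℝ)) n
        + ((fun s => TN H lam χQ z1 s p q - TN H lam χ z1 s p q) ∘ fun n => ((nn n : ℕ) : ℝ)) n)
        + TN H lam χ z1 (nn n) p q) = fun n => J (nn n) p q := by
      funext n
      simp only [Function.comp_apply]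
      ring
    rw [e1] at h4
    simpa using h4
  -- the transformation
  have hT : ∀ s : ℝ, 0 < s → ∀ p q, TN H lam χ z s p q =
      ∑ p', ∑ q', Q p' p * Q q' q * J s p' q' := by
    intro s hs p q
    have e1 : ∀ u : Fin (2 * k) → ℝ, χ u * fL H lam z (s • u) p q =
        ∑ p', ∑ q', Q p' p * Q q' q * (χ u * fL H lam z1 (s • (Q *ᵥ u + s⁻¹ • y)) p' q') := by
      intro u
      rw [hTRF c R P Φ Hf C H hA hH lam U t ht z hzU Q y hQ hy (s • u) p q, Finset.mul_sum]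
      refine Finset.sum_congr rfl fun p' _ => ?_
      rw [Finset.mul_sum]
      refine Finset.sum_congr rfl fun q' _ => ?_
      have e2 : s • (Q *ᵥ u + s⁻¹ • y) = Q *ᵥ (s • u) + y := by
        rw [smul_add, smul_smul, mul_inv_cancel₀ hs.ne', one_smul, Matrix.mulVec_smul]
      rw [e2]
      ring
    have hint : ∀ p' q', Integrable fun u =>
        Q p' p * Q q' q * (χ u * fL H lam z1 (s • (Q *ᵥ u + s⁻¹ • y)) p' q') := by
      intro p' q'
      refine Integrable.const_mul (wf_integrable_mul hχ ?_) _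
      refine (hfc p' q').comp ?_
      refine Continuous.const_smul (Continuous.add ?_ continuous_const) s
      exact Continuous.matrix_mulVec continuous_const continuous_id
    unfold TN
    rw [integral_congr_ae (Eventually.of_forall e1), integral_finsetSum _ fun p' _ =>
      integrable_finsetSum _ fun q' _ => hint p' q']
    refine Finset.sum_congr rfl fun p' _ => ?_
    rw [integral_finsetSum _ fun q' _ => hint p' q']
    refine Finset.sum_congr rfl fun q' _ => ?_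
    rw [integral_const_mul]
  ext p q
  have h1 := hfirst i z hzi p q
  have h2 : Tendsto (fun n => TN H lam χ z (nn n) p q) atTop
      (𝓝 (∑ p', ∑ q', Q p' p * Q q' q * E j p' q')) := by
    have h3 : Tendsto (fun n => ∑ p', ∑ q', Q p' p * Q q' q * J (nn n) p' q') atTop
        (𝓝 (∑ p', ∑ q', Q p' p * Q q' q * E j p' q')) :=
      tendsto_finsetSum _ fun p' _ => tendsto_finsetSum _ fun q' _ =>
        (hJ3 p' q').const_mul _
    refine h3.congr' ?_
    filter_upwards [hnnr.eventually_gt_atTop 0] with n hn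
    exact (hT _ hn p q).symm
  have h3 := tendsto_nhds_unique h1 h2
  rw [h3]
  exact sum_form Q (E j) p q

end Pool.Agent.Helper16.RK
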